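import Mathlib

/-! Definitions: algebraic degree, `PS+` functions and the set of their degrees. -/

namespace Pool.Agent.helper65.PS

/-- The space `F_2^n`. -/
abbrev Cube (n : ℕ) := Fin n → ZMod 2

/-- `p` is the algebraic normal form of the Boolean function `f`: it is multilinear and
represents `f`. -/
def IsANF {n : ℕ} (f : Cube n → ZMod 2) (p : MvPolynomial (Fin n) (ZMod 2)) : Prop :=
  (∀ s ∈ p.support, ∀ i, s i ≤ 1) ∧ ∀ x, MvPolynomial.eval x p = f x

/-- The Boolean function `f` has algebraic degree `d`. -/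
def HasDegree {n : ℕ} (f : Cube n → ZMod 2) (d : ℕ) : Prop :=
  ∃ p, IsANF f p ∧ p.totalDegree = d

open Classical in
/-- `f` is a `PS+` function on `F_2^(2m)`: there are `2^(m-1)+1` pairwise supplementary
subspaces `E i` of dimension `m` with `f = sum_i 1_(E i) - 2^(m-1) delta_0`. -/
def IsPSPlus (m : ℕ) (f : Cube (2 * m) → ZMod 2) : Prop :=
  ∃ E : Fin (2 ^ (m - 1) + 1) → Submodule (ZMod 2) (Cube (2 * m)),
    (∀ i, Module.finrank (ZMod 2) (E i) = m) ∧
    (∀ i j, i ≠ j → E i ⊓ E j = ⊥) ∧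
    ∀ x, ((f x).val : ℤ) =
      (∑ i, if x ∈ E i then 1 else 0) - 2 ^ (m - 1) * (if x = 0 then 1 else 0)

/-- The set `D(2m)` of the algebraic degrees of the `PS+` functions on `F_2^(2m)`. -/
def D (m : ℕ) : Set ℕ := {d | ∃ f : Cube (2 * m) → ZMod 2, IsPSPlus m f ∧ HasDegree f d}

end Pool.Agent.helper65.PS
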