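import Mathlib

/-! Degree theory of functions on elementary abelian 2-groups through iterated derivatives. -/

namespace Pool.Agent.helper65.PS

open Finset

/-- difference derivative of `f` in direction `a` -/
def der {V R : Type*} [Add V] [Sub R] (a : V) (f : V → R) : V → R := fun x => f (x + a) - f x

/-- `degLE d f`: all derivatives of `f` of order `d` are constant, i.e. `f` has degree at most `d` -/
def degLE {V R : Type*} [Add V] [Sub R] : ℕ → (V → R) → Prop
  | 0, f => ∀ x y, f x = f y
  | d + 1, f => ∀ a, degLE d (der a f)

section basic

variable {V W R S : Type*} [AddCommGroup V] [AddCommGroup W] [AddCommGroup R] [AddCommGroup S]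

theorem degLE_succ (d : ℕ) : ∀ {f : V → R}, degLE d f → degLE (d + 1) f := by
  induction d with
  | zero =>
    intro f h a x y
    simp only [der]
    rw [h (x + a) x, h (y + a) y]; simp
  | succ d ih =>
    intro f h a
    exact ih (h a)

theorem degLE_mono {d d' : ℕ} (h : d ≤ d') {f : V → R} (hf : degLE d f) : degLE d' f := by
  induction h with
  | refl => exact hf
  | step _ ih => exact degLE_succ _ ih

theorem degLE_const (c : R) (d : ℕ) : degLE d (fun _ : V => c) :=
  degLE_mono (Nat.zero_le d) (fun _ _ => rfl)

theorem degLE_add (d : ℕ) : ∀ {f g : V → R}, degLE d f → degLE d g → degLE d (fun x => f x + g x) := by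
  induction d with
  | zero => intro f g hf hg x y; simp only []; rw [hf x y, hg x y]
  | succ d ih =>
    intro f g hf hg a
    have : der a (fun x => f x + g x) = fun x => der a f x + der a g x := by
      funext x; simp only [der]; abel
    rw [this]; exact ih (hf a) (hg a)

theorem degLE_neg (d : ℕ) : ∀ {f : V → R}, degLE d f → degLE d (fun x => - f x) := by
  induction d with
  | zero => intro f hf x y; simp only []; rw [hf x y]
  | succ d ih =>
    intro f hf a
    have : der a (fun x => - f x) = fun x => - der a f x := by
      funext x; simp only [der]; abel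
    rw [this]; exact ih (hf a)

theorem degLE_sub (d : ℕ) {f g : V → R} (hf : degLE d f) (hg : degLE d g) :
    degLE d (fun x => f x - g x) := by
  have := degLE_add d hf (degLE_neg d hg)
  simpa [sub_eq_add_neg] using this

theorem degLE_sum {ι : Type*} (s : Finset ι) (d : ℕ) (f : ι → V → R)
    (h : ∀ i ∈ s, degLE d (f i)) : degLE d (fun x => ∑ i ∈ s, f i x) := by
  classical
  induction s using Finset.induction_on with
  | empty => simpa using degLE_const (V := V) (0 : R) d
  | insert i s hi ih =>
    have h1 := h i (Finset.mem_insert_self i s)
    have h2 := ih (fun j hj => h j (Finset.mem_insert_of_mem hj))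
    have := degLE_add d h1 h2
    simpa [Finset.sum_insert hi] using this

theorem degLE_comp (d : ℕ) (φ : W →+ V) : ∀ {f : V → R}, degLE d f → degLE d (fun x => f (φ x)) := by
  induction d with
  | zero => intro f hf x y; exact hf _ _
  | succ d ih =>
    intro f hf a
    have : der a (fun x => f (φ x)) = fun x => der (φ a) f (φ x) := by
      funext x; simp only [der, map_add]
    rw [this]; exact ih (hf _)

theorem degLE_shift (d : ℕ) (c : V) : ∀ {f : V → R}, degLE d f → degLE d (fun x => f (x + c)) := by
  induction d with
  | zero => intro f hf x y; exact hf _ _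
  | succ d ih =>
    intro f hf a
    have : der a (fun x => f (x + c)) = fun x => der a f (x + c) := by
      funext x; simp only [der]; congr 2; abel
    rw [this]; exact ih (hf _)

theorem degLE_map (d : ℕ) (ψ : R →+ S) : ∀ {f : V → R}, degLE d f → degLE d (fun x => ψ (f x)) := by
  induction d with
  | zero => intro f hf x y; simp only []; rw [hf x y]
  | succ d ih =>
    intro f hf a
    have : der a (fun x => ψ (f x)) = fun x => ψ (der a f x) := by
      funext x; simp only [der, map_sub]
    rw [this]; exact ih (hf _)

theorem degLE_addHom (φ : V →+ R) : degLE 1 (fun x => φ x) := by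
  intro a x y
  simp only [der, map_add]; abel

theorem degLE_of_eq {d : ℕ} {f g : V → R} (h : ∀ x, f x = g x) (hf : degLE d f) : degLE d g := by
  have : f = g := funext h
  rwa [← this]

end basic

section ring

variable {V R : Type*} [AddCommGroup V] [CommRing R]

theorem degLE_mul_aux (n : ℕ) : ∀ (a b : ℕ), a + b = n → ∀ {f g : V → R}, degLE a f → degLE b g →
    degLE n (fun x => f x * g x) := by
  induction n with
  | zero =>
    intro a b hab f g hf hg
    obtain ⟨rfl, rfl⟩ : a = 0 ∧ b = 0 := by omega
    intro x y
    show f x * g x = f y * g y
    rw [hf x y, hg x y]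
  | succ n ih =>
    intro a b hab f g hf hg c
    have key : der c (fun x => f x * g x) = fun x => der c f x * g (x + c) + f x * der c g x := by
      funext x; simp only [der]; ring
    rw [key]
    apply degLE_add
    · cases a with
      | zero =>
        have : ∀ x, der c f x * g (x + c) = 0 := by
          intro x; simp only [der]; rw [hf (x + c) x]; simp
        exact degLE_of_eq (fun x => (this x).symm) (degLE_const (0 : R) n)
      | succ a =>
        exact ih a b (by omega) (hf c) (degLE_shift _ c hg)
    · cases b with
      | zero =>
        have : ∀ x, f x * der c g x = 0 := by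
          intro x; simp only [der]; rw [hg (x + c) x]; simp
        exact degLE_of_eq (fun x => (this x).symm) (degLE_const (0 : R) n)
      | succ b =>
        exact ih a b (by omega) hf (hg c)

theorem degLE_mul {a b : ℕ} {f g : V → R} (hf : degLE a f) (hg : degLE b g) :
    degLE (a + b) (fun x => f x * g x) := degLE_mul_aux (a + b) a b rfl hf hg

theorem degLE_prod {ι : Type*} (s : Finset ι) (f : ι → V → R)
    (h : ∀ i ∈ s, degLE 1 (f i)) : degLE s.card (fun x => ∏ i ∈ s, f i x) := by
  classical
  induction s using Finset.induction_on with
  | empty => simpa using degLE_const (V := V) (1 : R) 0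
  | insert i s hi ih =>
    have h1 := h i (Finset.mem_insert_self i s)
    have h2 := ih (fun j hj => h j (Finset.mem_insert_of_mem hj))
    have := degLE_mul h1 h2
    rw [Finset.card_insert_of_notMem hi, add_comm]
    simpa [Finset.prod_insert hi] using this

end ring

section flats

variable {V R : Type*} [AddCommGroup V] [AddCommGroup R]

/-- the sum over a flat of dimension larger than the degree vanishes -/
theorem sum_flat {ι : Type*} [DecidableEq ι] (hR : ∀ r : R, r + r = 0) (v : ι → V) (s : Finset ι) :
    ∀ (d : ℕ) (f : V → R), degLE d f → d < s.card → ∀ x : V,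
      ∑ U ∈ s.powerset, f (x + ∑ i ∈ U, v i) = 0 := by
  have hneg : ∀ a b : R, a - b = a + b := by
    intro a b
    have : -b = b := by rw [neg_eq_iff_add_eq_zero]; exact hR b
    rw [sub_eq_add_neg, this]
  induction s using Finset.induction_on with
  | empty => intro d f _ h; simp at h
  | insert i s hi ih =>
    intro d f hf hd x
    rw [Finset.sum_powerset_insert hi, ← Finset.sum_add_distrib]
    have h1 : ∀ U ∈ s.powerset, f (x + ∑ j ∈ U, v j) + f (x + ∑ j ∈ insert i U, v j)
        = der (v i) f (x + ∑ j ∈ U, v j) := by
      intro U hU
      have hiU : i ∉ U := fun h => hi (Finset.mem_powerset.1 hU h)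
      rw [Finset.sum_insert hiU]
      simp only [der]
      rw [hneg, add_comm]
      congr 2
      abel
    rw [Finset.sum_congr rfl h1]
    rw [Finset.card_insert_of_notMem hi] at hd
    cases d with
    | zero =>
      apply Finset.sum_eq_zero
      intro U _
      simp only [der]
      rw [hf (x + ∑ j ∈ U, v j + v i) (x + ∑ j ∈ U, v j)]
      simp
    | succ d => exact ih d (der (v i) f) (hf _) (by omega) x

/-- the sum over the whole space of a function of smaller degree vanishes -/
theorem sum_univ [Module (ZMod 2) V] [Fintype V] (hR : ∀ r : R, r + r = 0) (d : ℕ) (f : V → R)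
    (hf : degLE d f) (hd : d < Module.finrank (ZMod 2) V) : ∑ x : V, f x = 0 := by
  classical
  have : Module.Finite (ZMod 2) V := Module.Finite.of_finite
  set k := Module.finrank (ZMod 2) V with hk
  let b := Module.finBasisOfFinrankEq (ZMod 2) V hk.symm
  have h := sum_flat hR (fun i => b i) (Finset.univ : Finset (Fin k)) d f hf (by simpa using hd) 0
  rw [← h]
  symm
  apply Finset.sum_bij' (fun (U : Finset (Fin k)) _ => (0 : V) + ∑ i ∈ U, b i)
    (fun x _ => Finset.univ.filter (fun i => b.repr x i = 1))
  · intro U _; exact Finset.mem_univ _
  · intro x _; simp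
  · intro U _
    ext j
    simp only [zero_add, Finset.mem_filter, Finset.mem_univ, true_and]
    rw [map_sum]
    simp only [Module.Basis.repr_self, Finsupp.finsetSum_apply, Finsupp.single_apply]
    rw [Finset.sum_ite_eq' U j (fun _ => (1 : ZMod 2))]
    by_cases hj : j ∈ U <;> simp [hj]
  · intro x _
    simp only [zero_add]
    conv_rhs => rw [← b.sum_repr x]
    rw [Finset.sum_filter]
    apply Finset.sum_congr rfl
    intro i _
    have h01 : b.repr x i = 0 ∨ b.repr x i = 1 := by
      generalize b.repr x i = c
      revert c; decide
    rcases h01 with h0 | h1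
    · simp [h0]
    · simp [h1]
  · intro U _; rfl

end flats

end Pool.Agent.helper65.PS
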