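import Mathlib
import Pool.Agent.helper65.PS.Deg
import Pool.Agent.helper65.PS.Defs

/-! The algebraic normal form and the derivative degree agree. -/

namespace Pool.Agent.helper65.PS

open Finset MvPolynomial

theorem zmod2_add_self (r : ZMod 2) : r + r = 0 := by revert r; decide

theorem exists_anf {n : ℕ} (f : Cube n → ZMod 2) : ∃ p, IsANF f p := by
  have h := MvPolynomial.map_restrict_dom_evalₗ (ZMod 2) (Fin n)
  have hf : f ∈ (⊤ : Submodule (ZMod 2) ((Fin n → ZMod 2) → ZMod 2)) := trivial
  rw [← h] at hf
  obtain ⟨p, hp, rfl⟩ := hf
  refine ⟨p, ?_, fun x => rfl⟩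
  intro s hs i
  have := (MvPolynomial.mem_restrictDegree (Fin n) p _).1 hp s hs i
  simpa [ZMod.card] using this

theorem degLE_eval {n : ℕ} (p : MvPolynomial (Fin n) (ZMod 2)) (hp : ∀ s ∈ p.support, ∀ i, s i ≤ 1)
    {d : ℕ} (hd : p.totalDegree ≤ d) : degLE d (fun x : Cube n => eval x p) := by
  have h1 : ∀ x : Cube n, ∑ s ∈ p.support, coeff s p * ∏ i ∈ s.support, x i = eval x p := by
    intro x
    rw [MvPolynomial.eval_eq]
    apply Finset.sum_congr rfl
    intro s hs
    congr 1
    apply Finset.prod_congr rfl
    intro i hi
    have h2 : s i ≤ 1 := hp s hs i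
    have h3 : s i ≠ 0 := Finsupp.mem_support_iff.1 hi
    have : s i = 1 := by omega
    rw [this, pow_one]
  apply degLE_of_eq h1
  apply degLE_sum
  intro s hs
  have h4 : degLE (s.support.card) (fun x : Cube n => ∏ i ∈ s.support, x i) := by
    apply degLE_prod
    intro i _
    exact degLE_addHom (Pi.evalAddMonoidHom (fun _ : Fin n => ZMod 2) i)
  have h5 : s.support.card ≤ d := by
    have h6 := MvPolynomial.le_totalDegree hs
    have h7 : s.support.card ≤ s.sum fun _ e => e := by
      rw [Finsupp.sum, Finset.card_eq_sum_ones]
      apply Finset.sum_le_sum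
      intro i hi
      have := Finsupp.mem_support_iff.1 hi
      omega
    omega
  exact degLE_map d (AddMonoidHom.mulLeft (coeff s p)) (degLE_mono h5 h4)

/-- indicator vector of a set -/
def ind {n : ℕ} (U : Finset (Fin n)) : Cube n := fun i => if i ∈ U then 1 else 0

theorem ind_eq_sum {n : ℕ} (U : Finset (Fin n)) :
    ind U = 0 + ∑ i ∈ U, (Pi.single i (1 : ZMod 2) : Cube n) := by
  ext j
  simp only [ind, zero_add, Finset.sum_apply, Pi.single_apply]
  rw [Finset.sum_ite_eq U j (fun _ => (1 : ZMod 2))]

theorem coeff_eq_sum {n : ℕ} (p : MvPolynomial (Fin n) (ZMod 2))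
    (hp : ∀ s ∈ p.support, ∀ i, s i ≤ 1) (s : Fin n →₀ ℕ) (hs : s ∈ p.support) :
    ∑ U ∈ s.support.powerset, eval (ind U) p = coeff s p := by
  have h1 : ∀ U : Finset (Fin n), eval (ind U) p
      = ∑ t ∈ p.support, if t.support ⊆ U then coeff t p else 0 := by
    intro U
    rw [MvPolynomial.eval_eq]
    apply Finset.sum_congr rfl
    intro t ht
    split_ifs with h
    · have : ∏ i ∈ t.support, ind U i ^ t i = 1 := by
        apply Finset.prod_eq_one
        intro i hi
        simp [ind, h hi]
      rw [this, mul_one]
    · obtain ⟨i, hi, hiU⟩ := Finset.not_subset.1 h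
      have : ∏ i ∈ t.support, ind U i ^ t i = 0 := by
        apply Finset.prod_eq_zero hi
        have := Finsupp.mem_support_iff.1 hi
        simp [ind, hiU, this]
      rw [this, mul_zero]
  simp_rw [h1]
  rw [Finset.sum_comm]
  have h2 : ∀ t ∈ p.support, (∑ U ∈ s.support.powerset, if t.support ⊆ U then coeff t p else 0)
      = if t = s then coeff s p else 0 := by
    intro t ht
    by_cases hts : t = s
    · subst hts
      rw [if_pos rfl]
      rw [Finset.sum_eq_single t.support]
      · simp
      · intro U hU hne
        rw [if_neg]
        intro h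
        exact hne (Finset.Subset.antisymm (Finset.mem_powerset.1 hU) h)
      · intro h; exact absurd (Finset.mem_powerset_self _) h
    · rw [if_neg hts]
      by_cases hsub : t.support ⊆ s.support
      · -- the number of U is even
        rw [← Finset.sum_filter, Finset.sum_const]
        have hcard : (s.support.powerset.filter (fun U => t.support ⊆ U)).card
            = 2 ^ (s.support \ t.support).card := by
          rw [← Finset.card_powerset]
          apply Finset.card_bij' (fun U _ => U \ t.support) (fun W _ => W ∪ t.support)
          · intro U hU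
            simp only [Finset.mem_filter, Finset.mem_powerset] at hU ⊢
            exact Finset.sdiff_subset_sdiff hU.1 (Finset.Subset.refl _)
          · intro W hW
            simp only [Finset.mem_filter, Finset.mem_powerset] at hW ⊢
            refine ⟨Finset.union_subset (hW.trans Finset.sdiff_subset) hsub, Finset.subset_union_right⟩
          · intro U hU
            simp only [Finset.mem_filter, Finset.mem_powerset] at hU
            exact Finset.sdiff_union_of_subset hU.2
          · intro W hW
            simp only [Finset.mem_powerset] at hW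
            ext i
            simp only [Finset.mem_sdiff, Finset.mem_union]
            constructor
            · rintro ⟨h | h, h'⟩
              · exact h
              · exact absurd h h'
            · intro h
              exact ⟨Or.inl h, (Finset.mem_sdiff.1 (hW h)).2⟩
        rw [hcard]
        have hpos : 0 < (s.support \ t.support).card := by
          rw [Finset.card_pos]
          by_contra hempty
          rw [Finset.not_nonempty_iff_eq_empty, Finset.sdiff_eq_empty_iff_subset] at hempty
          apply hts
          ext i
          have e1 := hp t ht i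
          have e2 := hp s hs i
          by_cases hi : i ∈ t.support
          · have a1 := Finsupp.mem_support_iff.1 hi
            have a2 := Finsupp.mem_support_iff.1 (hsub hi)
            omega
          · have hi' : i ∉ s.support := fun h => hi (hempty h)
            have a1 := Finsupp.notMem_support_iff.1 hi
            have a2 := Finsupp.notMem_support_iff.1 hi'
            omega
        obtain ⟨k, hk⟩ := Nat.exists_eq_succ_of_ne_zero (Nat.pos_iff_ne_zero.1 hpos)
        rw [hk, pow_succ, mul_comm, mul_smul, two_smul]
        rw [zmod2_add_self]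
      · apply Finset.sum_eq_zero
        intro U hU
        rw [if_neg]
        intro h
        exact hsub (h.trans (Finset.mem_powerset.1 hU))
  rw [Finset.sum_congr rfl h2, Finset.sum_ite_eq' p.support s, if_pos hs]

theorem totalDegree_le_of_degLE {n : ℕ} (p : MvPolynomial (Fin n) (ZMod 2))
    (hp : ∀ s ∈ p.support, ∀ i, s i ≤ 1) {d : ℕ}
    (hd : degLE d (fun x : Cube n => eval x p)) : p.totalDegree ≤ d := by
  classical
  rw [MvPolynomial.totalDegree, Finset.sup_le_iff]
  intro s hs
  by_contra hlt
  push Not at hlt
  have hcard : (s.sum fun _ e => e) ≤ s.support.card := by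
    rw [Finsupp.sum, Finset.card_eq_sum_ones]
    apply Finset.sum_le_sum
    intro i hi
    exact hp s hs i
  have h1 := sum_flat (V := Cube n) zmod2_add_self (fun i => (Pi.single i (1 : ZMod 2) : Cube n))
    s.support d (fun x => eval x p) hd (lt_of_lt_of_le hlt hcard) 0
  have h2 := coeff_eq_sum p hp s hs
  simp only [← ind_eq_sum] at h1
  rw [h1] at h2
  exact (MvPolynomial.mem_support_iff.1 hs) h2.symm

theorem hasDegree_of {n d : ℕ} (f : Cube n → ZMod 2) (h1 : degLE d f)
    (h2 : ∀ d' < d, ¬ degLE d' f) : HasDegree f d := by
  obtain ⟨p, hp⟩ := exists_anf f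
  refine ⟨p, hp, ?_⟩
  have e : (fun x : Cube n => eval x p) = f := funext hp.2
  apply le_antisymm
  · apply totalDegree_le_of_degLE p hp.1
    rw [e]; exact h1
  · by_contra hlt
    push Not at hlt
    apply h2 _ hlt
    have := degLE_eval p hp.1 (le_refl _)
    rwa [e] at this

theorem of_hasDegree {n d : ℕ} (f : Cube n → ZMod 2) (h : HasDegree f d) :
    degLE d f ∧ ∀ d' < d, ¬ degLE d' f := by
  obtain ⟨p, hp, rfl⟩ := h
  have e : (fun x : Cube n => eval x p) = f := funext hp.2
  constructor
  · have := degLE_eval p hp.1 (le_refl _)
    rwa [e] at this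
  · intro d' hd' hle
    have := totalDegree_le_of_degLE p hp.1 (d := d') (by rw [e]; exact hle)
    omega

end Pool.Agent.helper65.PS
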