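import Mathlib
import Pool.Agent.helper65.PS.Anf

/-! Transport of `PS+` functions from an abstract space to `F_2^(2m)`. -/

namespace Pool.Agent.helper65.PS

open Finset

theorem zmod2_cases (c : ZMod 2) : c = 0 ∨ c = 1 := by revert c; decide

theorem mem_D {m d : ℕ} {V : Type*} [AddCommGroup V] [Module (ZMod 2) V]
    [Module.Finite (ZMod 2) V]
    (hV : Module.finrank (ZMod 2) V = 2 * m) {ι : Type*} [Fintype ι]
    (hι : Fintype.card ι = 2 ^ (m - 1) + 1) (E : ι → Submodule (ZMod 2) V)
    (hE : ∀ i, Module.finrank (ZMod 2) (E i) = m)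
    (hdis : ∀ i j, i ≠ j → ∀ v, v ∈ E i → v ∈ E j → v = 0)
    (f : V → ZMod 2) (hf : ∀ v, f v = 1 ↔ ∃ i, v ∈ E i)
    (h1 : degLE d f) (hd : 1 ≤ d) (h2 : ¬ degLE (d - 1) f) : d ∈ D m := by
  classical
  let e : Cube (2 * m) ≃ₗ[ZMod 2] V := LinearEquiv.ofFinrankEq _ _ (by simp [hV])
  let ei : Fin (2 ^ (m - 1) + 1) ≃ ι := (Fintype.equivFinOfCardEq hι).symm
  refine ⟨fun x => f (e x), ⟨fun i => (E (ei i)).comap e.toLinearMap, ?_, ?_, ?_⟩, ?_⟩
  · intro i
    have : (E (ei i)).comap e.toLinearMap = (E (ei i)).map (e.symm : V →ₗ[ZMod 2] Cube (2 * m)) :=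
      Submodule.comap_equiv_eq_map_symm _ _
    beta_reduce
    rw [this, LinearEquiv.finrank_map_eq]
    exact hE _
  · intro i j hij
    rw [eq_bot_iff]
    rintro x ⟨hx1, hx2⟩
    have := hdis (ei i) (ei j) (fun h => hij (ei.injective h)) (e x) hx1 hx2
    simpa using this
  · intro x
    beta_reduce
    by_cases hx : x = 0
    · subst hx
      have h0 : f (e 0) = 1 := (hf _).2 ⟨ei 0, by simp⟩
      have hz : ∀ i : Fin (2 ^ (m - 1) + 1), (0 : Cube (2 * m)) ∈ (E (ei i)).comap e.toLinearMap :=
        fun i => Submodule.zero_mem _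
      rw [h0]
      simp only [hz, if_true, Finset.sum_const, Finset.card_univ, Fintype.card_fin]
      have : ((1 : ZMod 2).val : ℤ) = 1 := by decide
      rw [this]
      push_cast
      simp
    · rw [if_neg hx, mul_zero, sub_zero]
      have hex : e x ≠ 0 := fun h => hx (by simpa using h)
      by_cases h : ∃ i, e x ∈ E i
      · have hfx := (hf (e x)).2 h
        obtain ⟨i, hi⟩ := h
        rw [hfx, Finset.sum_eq_single (ei.symm i)]
        · have hmem : x ∈ (E (ei (ei.symm i))).comap e.toLinearMap := by
            rw [Submodule.mem_comap]; simpa using hi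
          rw [if_pos hmem]; decide
        · intro j _ hj
          rw [if_neg]
          intro hmem
          exact hex (hdis (ei j) i (fun h => hj (by rw [← h]; simp)) (e x) hmem hi)
        · intro h'; exact absurd (Finset.mem_univ _) h'
      · have hfx : f (e x) = 0 := by
          rcases zmod2_cases (f (e x)) with h0 | h0
          · exact h0
          · exact absurd ((hf _).1 h0) h
        rw [hfx, Finset.sum_eq_zero]
        · decide
        · intro j _
          rw [if_neg]
          intro hmem
          exact h ⟨ei j, hmem⟩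
  · apply hasDegree_of
    · exact degLE_comp d (e.toLinearMap.toAddMonoidHom) h1
    · intro d' hd' hle
      apply h2
      have h3 := degLE_comp d' (e.symm.toLinearMap.toAddMonoidHom) hle
      have h4 : degLE d' f := by
        apply degLE_of_eq _ h3
        intro x
        show f (e (e.symm x)) = f x
        simp
      exact degLE_mono (by omega) h4

/-- If some `m`-dimensional subspace meets no member, the degree is not smaller than `m`. -/
theorem not_degLE_of_missing {m : ℕ} (hm : 1 ≤ m) {V : Type*} [AddCommGroup V] [Module (ZMod 2) V]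
    [Module.Finite (ZMod 2) V] (X : Submodule (ZMod 2) V) (hX : Module.finrank (ZMod 2) X = m)
    (f : V → ZMod 2) (h0 : f 0 = 1) (hx : ∀ x ∈ X, x ≠ 0 → f x = 0) : ¬ degLE (m - 1) f := by
  classical
  intro h
  have : Finite X := Module.finite_of_finite (ZMod 2)
  have := Fintype.ofFinite X
  have h1 := sum_univ (V := X) zmod2_add_self (m - 1) (fun x : X => f x)
    (degLE_comp (m - 1) X.subtype.toAddMonoidHom h) (by omega)
  rw [Finset.sum_eq_single (0 : X)] at h1
  · rw [ZeroMemClass.coe_zero, h0] at h1
    exact one_ne_zero h1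
  · intro x _ hx0
    exact hx x x.2 (fun h => hx0 (by ext; simpa using h))
  · intro h'; exact absurd (Finset.mem_univ _) h'

end Pool.Agent.helper65.PS
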