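import Mathlib
import Pool.Agent.helper65.PS.Trans

/-! Finite fields of characteristic two: trace, Artin-Schreier, and the common set-up. -/

namespace Pool.Agent.helper65.PS

open Finset Module

section fld

set_option linter.unusedSectionVars false

variable {F : Type*} [Field F] [Finite F] [Algebra (ZMod 2) F]

theorem two_eq_zero' : (2 : F) = 0 := by
  have h1 : (algebraMap (ZMod 2) F) ((2 : ℕ) : ZMod 2) = 0 := by
    have : ((2 : ℕ) : ZMod 2) = 0 := by decide
    rw [this, map_zero]
  rw [map_natCast] at h1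
  exact_mod_cast h1

theorem charP' : CharP F 2 := CharTwo.of_one_ne_zero_of_two_eq_zero one_ne_zero two_eq_zero'

theorem F_add_self (x : F) : x + x = 0 := by
  have := two_eq_zero' (F := F); linear_combination x * this

/-- the absolute trace -/
noncomputable def Tr (x : F) : ZMod 2 := Algebra.trace (ZMod 2) F x

theorem Tr_add (x y : F) : Tr (x + y) = Tr x + Tr y := map_add _ _ _

theorem Tr_zero : Tr (0 : F) = 0 := map_zero _

theorem Tr_smul (a : ZMod 2) (x : F) : Tr (a • x) = a * Tr x := by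
  simp [Tr]

/-- the trace as an additive map -/
noncomputable def TrHom : F →+ ZMod 2 := (Algebra.trace (ZMod 2) F).toAddMonoidHom

theorem TrHom_apply (x : F) : TrHom x = Tr x := rfl

theorem Tr_one : Tr (1 : F) = (finrank (ZMod 2) F : ZMod 2) := by
  have : Algebra.trace (ZMod 2) F (algebraMap (ZMod 2) F 1) = finrank (ZMod 2) F • (1 : ZMod 2) :=
    Algebra.trace_algebraMap (1 : ZMod 2)
  simpa [Tr] using this

theorem Tr_sq (x : F) : Tr (x ^ 2) = Tr x := by
  have := Fintype.ofFinite F
  have h := Algebra.trace_eq_of_algEquiv (FiniteField.frobeniusAlgEquivOfAlgebraic (ZMod 2) F) x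
  have h2 : (FiniteField.frobeniusAlgEquivOfAlgebraic (ZMod 2) F) x = x ^ 2 := by
    simp [ZMod.card]
  rw [h2] at h
  exact h

theorem exists_Tr_one : ∃ x : F, Tr x = 1 := by
  obtain ⟨x, hx⟩ := Algebra.trace_surjective (ZMod 2) F 1
  exact ⟨x, hx⟩

theorem eq_zero_of_Tr (x : F) (h : ∀ y, Tr (x * y) = 0) : x = 0 := by
  by_contra hx
  obtain ⟨z, hz⟩ := exists_Tr_one (F := F)
  have := h (x⁻¹ * z)
  rw [mul_inv_cancel_left₀ hx, hz] at this
  exact one_ne_zero this

theorem exists_Tr_mul_one {x : F} (hx : x ≠ 0) : ∃ y, Tr (x * y) = 1 := by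
  obtain ⟨z, hz⟩ := exists_Tr_one (F := F)
  exact ⟨x⁻¹ * z, by rw [mul_inv_cancel_left₀ hx, hz]⟩

/-- a linear map with values in the kernel of the trace and kernel `{0,1}` has image exactly the
kernel of the trace -/
theorem as_aux (φ : F →+ F) (h1 : ∀ x, φ x = 0 → x = 0 ∨ x = 1) (h2 : φ 1 = 0)
    (h3 : ∀ x, Tr (φ x) = 0) (w : F) (hw : Tr w = 0) : ∃ x, φ x = w := by
  let ψ : F →ₗ[ZMod 2] F := φ.toZModLinearMap 2
  have hψ : ∀ x, ψ x = φ x := fun x => rfl
  have hker : LinearMap.ker ψ = Submodule.span (ZMod 2) {(1 : F)} := by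
    ext x
    rw [LinearMap.mem_ker, Submodule.mem_span_singleton, hψ]
    constructor
    · intro h
      rcases h1 x h with h | h
      · exact ⟨0, by simp [h]⟩
      · exact ⟨1, by simp [h]⟩
    · rintro ⟨a, rfl⟩
      rcases zmod2_cases a with h | h
      · simp [h]
      · simp [h, h2]
  have hle : LinearMap.range ψ ≤ LinearMap.ker (Algebra.trace (ZMod 2) F) := by
    rintro _ ⟨x, rfl⟩
    exact h3 x
  have hr := LinearMap.finrank_range_add_finrank_ker ψ
  rw [hker, finrank_span_singleton one_ne_zero] at hr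
  have ht := LinearMap.finrank_range_add_finrank_ker (Algebra.trace (ZMod 2) F)
  rw [LinearMap.range_eq_top.2 (Algebra.trace_surjective (ZMod 2) F), finrank_top,
    finrank_self] at ht
  have heq := Submodule.eq_of_le_of_finrank_eq hle (by omega)
  have hw' : w ∈ LinearMap.ker (Algebra.trace (ZMod 2) F) := hw
  rw [← heq] at hw'
  exact hw'

/-- powers of Frobenius as additive maps -/
noncomputable def frob (k : ℕ) : F →+ F :=
  haveI := charP' (F := F)
  haveI : ExpChar F 2 := ExpChar.prime Nat.prime_two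
  (iterateFrobenius F 2 k).toAddMonoidHom

theorem frob_apply (k : ℕ) (x : F) : frob k x = x ^ 2 ^ k := by
  have := charP' (F := F)
  have : ExpChar F 2 := ExpChar.prime Nat.prime_two
  simp [frob, iterateFrobenius_def]

theorem sq_add (x y : F) : (x + y) ^ 2 = x ^ 2 + y ^ 2 := by
  have := two_eq_zero' (F := F); linear_combination x * y * this

theorem pow4_add (x y : F) : (x + y) ^ 4 = x ^ 4 + y ^ 4 := by
  have h : ∀ z : F, z ^ 4 = (z ^ 2) ^ 2 := fun z => by ring
  rw [h, h, h, sq_add, sq_add]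

theorem sq_surj (x : F) : ∃ y, y ^ 2 = x := by
  have hinj : Function.Injective (fun y : F => y ^ 2) := by
    intro a b h
    have h' : (a + b) ^ 2 = 0 := by
      rw [sq_add]; simp only [] at h; rw [h]; exact F_add_self _
    have h2 : a + b = 0 := pow_eq_zero_iff (two_ne_zero) |>.1 h'
    have h3 := F_add_self b
    calc a = a + b + b := by rw [add_assoc, h3, add_zero]
      _ = b := by rw [h2, zero_add]
  exact (Finite.surjective_of_injective hinj) x

theorem pow4_surj (x : F) : ∃ y, y ^ 4 = x := by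
  obtain ⟨y, hy⟩ := sq_surj x
  obtain ⟨z, hz⟩ := sq_surj y
  exact ⟨z, by rw [← hy, ← hz]; ring⟩

theorem artin_schreier (w : F) (hw : Tr w = 0) : ∃ x, x ^ 2 + x = w := by
  have := as_aux (F := F) (frob 1 + AddMonoidHom.id F) ?_ ?_ ?_ w hw
  · obtain ⟨x, hx⟩ := this
    refine ⟨x, ?_⟩
    rw [← hx]; simp [frob_apply]
  · intro x hx
    simp only [AddMonoidHom.add_apply, frob_apply, AddMonoidHom.id_apply] at hx
    have : x * (x + 1) = 0 := by rw [← hx]; ring
    rcases mul_eq_zero.1 this with h | h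
    · exact Or.inl h
    · right
      have := F_add_self (1 : F)
      linear_combination h - this
  · simp only [AddMonoidHom.add_apply, frob_apply, AddMonoidHom.id_apply, one_pow]
    exact F_add_self _
  · intro x
    simp only [AddMonoidHom.add_apply, frob_apply, AddMonoidHom.id_apply, pow_one, Tr_add, Tr_sq]
    exact zmod2_add_self _

end fld

section setup

set_option linter.unusedSectionVars false

variable {F : Type} [Field F] [Finite F] [Algebra (ZMod 2) F]

/-- the ambient space -/
abbrev VV (F : Type) := (ZMod 2 × F) × (F × ZMod 2)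

theorem finite_V : Module.Finite (ZMod 2) (VV F) := by
  have : Module.Finite (ZMod 2) F := Module.Finite.of_finite
  infer_instance

/-- general criterion for families of images of `F_2 x F` -/
theorem mem_D_fam {d : ℕ} (ψ : Option F → (ZMod 2 × F →+ VV F))
    (hinj : ∀ i p, ψ i p = 0 → p = 0)
    (hdis : ∀ i j, i ≠ j → ∀ p q, ψ i p = ψ j q → ψ i p = 0)
    (f : VV F → ZMod 2) (hf : ∀ v, f v = 1 ↔ ∃ i p, ψ i p = v)
    (h1 : degLE d f) (hd : 1 ≤ d) (h2 : ¬ degLE (d - 1) f) :
    d ∈ D (finrank (ZMod 2) F + 1) := by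
  have : Module.Finite (ZMod 2) F := Module.Finite.of_finite
  have := Fintype.ofFinite F
  refine mem_D (V := VV F) (ι := Option F) ?_ ?_
    (fun i => LinearMap.range ((ψ i).toZModLinearMap 2)) ?_ ?_ f ?_ h1 hd h2
  · rw [finrank_prod, finrank_prod, finrank_prod, finrank_self]; ring
  · have hc : Fintype.card F = 2 ^ finrank (ZMod 2) F := by
      have := Module.card_eq_pow_finrank (K := ZMod 2) (V := F)
      rw [ZMod.card] at this
      exact this
    rw [Fintype.card_option, hc, Nat.add_sub_cancel]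
  · intro i
    rw [LinearMap.finrank_range_of_inj, finrank_prod, finrank_self]
    · ring
    · rw [← LinearMap.ker_eq_bot, eq_bot_iff]
      intro p hp
      exact hinj i p hp
  · rintro i j hij v ⟨p, hp⟩ ⟨q, hq⟩
    have hp' : ψ i p = v := hp
    have hq' : ψ j q = v := hq
    rw [← hp']
    exact hdis i j hij p q (hp'.trans hq'.symm)
  · intro v
    rw [hf v]
    constructor
    · rintro ⟨i, p, h⟩; exact ⟨i, p, h⟩
    · rintro ⟨i, p, h⟩; exact ⟨i, p, h⟩

theorem deg_a : degLE 1 (fun v : VV F => v.1.1) :=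
  degLE_addHom ((AddMonoidHom.fst (ZMod 2) F).comp (AddMonoidHom.fst (ZMod 2 × F) (F × ZMod 2)))

theorem deg_x : degLE 1 (fun v : VV F => v.1.2) :=
  degLE_addHom ((AddMonoidHom.snd (ZMod 2) F).comp (AddMonoidHom.fst (ZMod 2 × F) (F × ZMod 2)))

theorem deg_y : degLE 1 (fun v : VV F => v.2.1) :=
  degLE_addHom ((AddMonoidHom.fst F (ZMod 2)).comp (AddMonoidHom.snd (ZMod 2 × F) (F × ZMod 2)))

theorem deg_c : degLE 1 (fun v : VV F => v.2.2) :=
  degLE_addHom ((AddMonoidHom.snd F (ZMod 2)).comp (AddMonoidHom.snd (ZMod 2 × F) (F × ZMod 2)))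

theorem deg_Trxy (l : F) : degLE 2 (fun v : VV F => Tr (l * v.1.2 * v.2.1)) := by
  have h1 := degLE_mul (deg_x (F := F)) (deg_y (F := F))
  have h2 := degLE_map 2 (AddMonoidHom.mulLeft l) h1
  have h3 := degLE_map 2 (TrHom (F := F)) h2
  apply degLE_of_eq _ h3
  intro v
  simp only [TrHom_apply, AddMonoidHom.coe_mulLeft, mul_assoc]

end setup

end Pool.Agent.helper65.PS
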