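import Mathlib
import Pool.Agent.helper65.PS.Fld

/-! The family of degree `m/2+2`. -/

namespace Pool.Agent.helper65.PS

open Finset Module

section ftw

variable {F : Type} [Field F] [Finite F] [Algebra (ZMod 2) F]

set_option linter.unusedSectionVars false

/-- `x ^ ((4^w-1)/3)` -/
def PP (w : ℕ) (x : F) : F := ∏ i ∈ range w, x ^ 4 ^ i

/-- `x ^ (2 (4^(w-1)-1)/3)` -/
def QQ (w : ℕ) (x : F) : F := ∏ i ∈ range (w - 1), x ^ (2 * 4 ^ i)

theorem geom4 (w : ℕ) : 3 * ∑ i ∈ range w, 4 ^ i + 1 = 4 ^ w := by
  induction w with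
  | zero => simp
  | succ w ih => rw [Finset.sum_range_succ, pow_succ]; omega

theorem pow_q (x : F) : x ^ 2 ^ finrank (ZMod 2) F = x := by
  have := Fintype.ofFinite F
  have : Module.Finite (ZMod 2) F := Module.Finite.of_finite
  have hc : Fintype.card F = 2 ^ finrank (ZMod 2) F := by
    have := Module.card_eq_pow_finrank (K := ZMod 2) (V := F)
    rw [ZMod.card] at this
    exact this
  rw [← hc]
  exact FiniteField.pow_card x

theorem PP_cube {w : ℕ} (hw : 1 ≤ w) (hF : finrank (ZMod 2) F = 2 * w - 1) (x : F) :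
    PP w x ^ 3 = x := by
  by_cases hx : x = 0
  · subst hx
    have : PP w (0 : F) = 0 := by
      unfold PP
      apply Finset.prod_eq_zero (i := 0) (Finset.mem_range.2 hw)
      simp
    rw [this]; ring
  · have h1 : PP w x ^ 3 * x = x ^ 2 := by
      unfold PP
      rw [Finset.prod_pow_eq_pow_sum, ← pow_mul, ← pow_succ]
      have h2 : (∑ i ∈ range w, 4 ^ i) * 3 + 1 = 4 ^ w := by
        have := geom4 w; omega
      rw [h2]
      have h3 : (4 : ℕ) ^ w = 2 ^ finrank (ZMod 2) F * 2 := by
        rw [hF, ← pow_succ, show 2 * w - 1 + 1 = 2 * w by omega, pow_mul]; norm_num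
      rw [h3, pow_mul, pow_q]
    have h4 : PP w x ^ 3 * x = x * x := by rw [h1]; ring
    exact mul_right_cancel₀ hx h4

theorem PP_zero {w : ℕ} (hw : 1 ≤ w) : PP w (0 : F) = 0 := by
  unfold PP
  apply Finset.prod_eq_zero (i := 0) (Finset.mem_range.2 hw)
  simp

theorem PP_ne {w : ℕ} (hw : 1 ≤ w) (hF : finrank (ZMod 2) F = 2 * w - 1) {x : F} (hx : x ≠ 0) :
    PP w x ≠ 0 := by
  intro h
  apply hx
  rw [← PP_cube hw hF x, h]; ring

theorem geomPQ (w : ℕ) (hw : 1 ≤ w) :
    ∑ i ∈ range w, 4 ^ i + ∑ i ∈ range (w - 1), 2 * 4 ^ i + 1 = 2 ^ (2 * w - 1) := by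
  obtain ⟨k, rfl⟩ : ∃ k, w = k + 1 := ⟨w - 1, by omega⟩
  have h1 := geom4 (k + 1)
  have h2 := geom4 k
  rw [← Finset.mul_sum, Nat.add_sub_cancel]
  have h3 : 2 ^ (2 * (k + 1) - 1) = 2 * 4 ^ k := by
    rw [show 2 * (k + 1) - 1 = 2 * k + 1 by omega, pow_succ, pow_mul]; norm_num; ring
  rw [h3]
  rw [pow_succ] at h1
  omega

theorem PQ {w : ℕ} (hw : 1 ≤ w) (hF : finrank (ZMod 2) F = 2 * w - 1) {x : F} (hx : x ≠ 0) :
    PP w x * QQ w x = 1 := by
  have h1 : PP w x * QQ w x * x = 1 * x := by
    unfold PP QQ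
    rw [Finset.prod_pow_eq_pow_sum, Finset.prod_pow_eq_pow_sum, ← pow_add, ← pow_succ,
      geomPQ w hw, ← hF, pow_q, one_mul]
  exact mul_right_cancel₀ hx h1

theorem Tr_pow4 (x : F) : Tr (x ^ 4) = Tr x := by
  have : x ^ 4 = (x ^ 2) ^ 2 := by ring
  rw [this, Tr_sq, Tr_sq]

theorem as4 {w : ℕ} (hw : 1 ≤ w) (hF : finrank (ZMod 2) F = 2 * w - 1) (z : F) (hz : Tr z = 0) :
    ∃ x, x ^ 4 + x = z := by
  have := as_aux (F := F) (frob 2 + AddMonoidHom.id F) ?_ ?_ ?_ z hz
  · obtain ⟨x, hx⟩ := this
    refine ⟨x, ?_⟩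
    rw [← hx]; simp [frob_apply]
  · intro x hx
    simp only [AddMonoidHom.add_apply, frob_apply, AddMonoidHom.id_apply] at hx
    have h0 : x * (x ^ 3 + 1) = 0 := by rw [← hx]; ring
    rcases mul_eq_zero.1 h0 with h | h
    · exact Or.inl h
    · right
      have h1 := F_add_self (1 : F)
      have h3 : x ^ 3 = 1 := by linear_combination h - h1
      -- x = PP (x)^3 = PP (x^3)
      have h4 : PP w x ^ 3 = PP w (x ^ 3) := by
        unfold PP
        rw [← Finset.prod_pow]
        apply Finset.prod_congr rfl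
        intro i _
        rw [← pow_mul, ← pow_mul, mul_comm]
      rw [PP_cube hw hF, h3] at h4
      rw [h4]
      unfold PP
      simp
  · simp only [AddMonoidHom.add_apply, frob_apply, AddMonoidHom.id_apply, one_pow]
    exact F_add_self _
  · intro x
    simp only [AddMonoidHom.add_apply, frob_apply, AddMonoidHom.id_apply, Tr_add]
    have : x ^ 2 ^ 2 = x ^ 4 := by norm_num
    rw [this, Tr_pow4]
    exact zmod2_add_self _

/-- the members -/
noncomputable def psiW : Option F → (ZMod 2 × F →+ VV F)
  | none => AddMonoidHom.mk' (fun p => ((p.1, 0), (p.2, p.1)))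
      (by intro p q; ext <;> simp)
  | some r => AddMonoidHom.mk' (fun p => ((p.1, p.2), (r ^ 4 * p.2 + p.1 • r, Tr (r ^ 3 * p.2))))
      (by
        intro p q
        ext
        · simp
        · simp
        · simp only [Prod.fst_add, Prod.snd_add, add_smul]; ring
        · simp only [Prod.snd_add, mul_add, Tr_add])

theorem psiW_none (a : ZMod 2) (y : F) : psiW none (a, y) = ((a, 0), (y, a)) := rfl

theorem psiW_some (r : F) (a : ZMod 2) (x : F) :
    psiW (some r) (a, x) = ((a, x), (r ^ 4 * x + a • r, Tr (r ^ 3 * x))) := rfl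

/-- the function -/
noncomputable def fW (w : ℕ) (v : VV F) : ZMod 2 :=
  1 + (1 + v.1.1) * (v.2.2 + Tr (v.1.2 * v.2.1 ^ 3)) + v.1.1 * Tr (PP w v.1.2 * v.2.1)

theorem psiW_inj : ∀ (i : Option F) p, psiW i p = 0 → p = 0 := by
  rintro (_ | s) ⟨a, x⟩ h
  · rw [psiW_none] at h
    simp only [Prod.mk_eq_zero] at h
    simp [h.1.1, h.2.1]
  · rw [psiW_some] at h
    simp only [Prod.mk_eq_zero] at h
    simp [h.1.1, h.1.2]

theorem psiW_dis (hT : Tr (1 : F) = 1) :
    ∀ i j : Option F, i ≠ j → ∀ p q, psiW i p = psiW j q → psiW i p = 0 := by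
  rintro (_ | s) (_ | t) hij ⟨a, x⟩ ⟨b, y⟩ h
  · exact absurd rfl hij
  · rw [psiW_none, psiW_some] at h
    simp only [Prod.mk.injEq] at h
    obtain ⟨⟨h1, h2⟩, h3, h4⟩ := h
    subst h2
    rw [mul_zero, Tr_zero] at h4
    subst h4
    rw [← h1] at h3
    rw [psiW_none, h3]
    simp
  · rw [psiW_none, psiW_some] at h
    simp only [Prod.mk.injEq] at h
    obtain ⟨⟨h1, h2⟩, h3, h4⟩ := h
    subst h2
    rw [mul_zero, Tr_zero] at h4
    rw [← h4] at h1
    subst h1
    rw [psiW_some]
    simp [Tr_zero]
  · rw [psiW_some, psiW_some] at h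
    simp only [Prod.mk.injEq] at h
    obtain ⟨⟨h1, h2⟩, h3, h4⟩ := h
    subst h1 h2
    obtain ⟨d, rfl⟩ : ∃ d, t = s + d := ⟨t - s, by ring⟩
    have hd : d ≠ 0 := by
      intro h0
      apply hij
      rw [h0, add_zero]
    rcases zmod2_cases a with ha | ha
    · subst ha
      have h5 : d ^ 4 * x = 0 := by
        rw [pow4_add] at h3
        simp only [zero_smul, add_zero] at h3
        linear_combination -h3
      have hx : x = 0 := by
        rcases mul_eq_zero.1 h5 with h6 | h6
        · exact absurd (pow_eq_zero_iff (by norm_num) |>.1 h6) hd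
        · exact h6
      subst hx
      rw [psiW_some]
      simp [Tr_zero]
    · exfalso
      subst ha
      simp only [one_smul] at h3
      rw [pow4_add] at h3
      have h5 : d * (d ^ 3 * x) = d * 1 := by
        have := F_add_self d
        linear_combination -h3 - this
      have h6 := mul_left_cancel₀ hd h5
      have h7 : Tr (s ^ 3 * x) + Tr ((s + d) ^ 3 * x) = 1 := by
        have e : s ^ 3 * x + (s + d) ^ 3 * x = 1 + ((s * d⁻¹) ^ 2 + s * d⁻¹) := by
          have hx : x = (d⁻¹) ^ 3 := by
            field_simp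
            linear_combination h6
          have h2 := two_eq_zero' (F := F)
          rw [hx]
          field_simp
          linear_combination (s ^ 3 + s ^ 2 * d + s * d ^ 2) * h2
        rw [← Tr_add, e, Tr_add, Tr_add, Tr_sq, zmod2_add_self, add_zero, hT]
      rw [h4, zmod2_add_self] at h7
      exact zero_ne_one h7

theorem fW_iff {w : ℕ} (hw : 1 ≤ w) (hF : finrank (ZMod 2) F = 2 * w - 1)
    (hT : Tr (1 : F) = 1) (v : VV F) :
    fW w v = 1 ↔ ∃ i p, psiW i p = v := by
  constructor
  · obtain ⟨⟨a, x⟩, ⟨y, c⟩⟩ := v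
    intro h
    simp only [fW] at h
    rcases zmod2_cases a with ha | ha
    · subst ha
      have hc : c = Tr (x * y ^ 3) := by
        revert h
        generalize Tr (x * y ^ 3) = t
        generalize Tr (PP w x * y) = u
        revert c t u; decide
      by_cases hx : x = 0
      · subst hx
        refine ⟨none, (0, y), ?_⟩
        rw [psiW_none, hc]
        simp [Tr_zero]
      · obtain ⟨s, hs⟩ := pow4_surj (y / x)
        refine ⟨some s, (0, x), ?_⟩
        rw [psiW_some, hc]
        have h1 : s ^ 4 * x = y := by rw [hs]; field_simp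
        have h2 : Tr (s ^ 3 * x) = Tr (x * y ^ 3) := by
          rw [← Tr_pow4 (s ^ 3 * x)]
          congr 1
          rw [← h1]; ring
        simp [h1, h2]
    · subst ha
      have ht : Tr (PP w x * y) = 0 := by
        revert h
        generalize Tr (x * y ^ 3) = t
        generalize Tr (PP w x * y) = u
        revert c t u; decide
      by_cases hx : x = 0
      · subst hx
        rcases zmod2_cases c with hc | hc
        · subst hc
          refine ⟨some y, (1, 0), ?_⟩
          rw [psiW_some]; simp [Tr_zero]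
        · subst hc
          refine ⟨none, (1, y), ?_⟩
          rw [psiW_none]
      · obtain ⟨R, hR⟩ := as4 hw hF _ ht
        have hz := PP_ne hw hF hx
        have hz3 := PP_cube hw hF x
        set z := PP w x with hzdef
        have key : ∀ Q : F, Q ^ 4 + Q = z * y → (Q / z) ^ 4 * x + Q / z = y := by
          intro Q hQ
          rw [← hz3]
          have : (Q / z) ^ 4 * z ^ 3 + Q / z = (Q ^ 4 + Q) / z := by field_simp
          rw [this, hQ]; field_simp
        have key2 : ∀ Q : F, (Q / z) ^ 3 * x = Q ^ 3 := by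
          intro Q
          rw [← hz3]; field_simp
        by_cases hc : c = Tr (R ^ 3)
        · refine ⟨some (R / z), (1, x), ?_⟩
          rw [psiW_some, one_smul, key R hR, key2, hc]
        · have hR' : (R + 1) ^ 4 + (R + 1) = z * y := by
            rw [pow4_add]
            have := F_add_self (1 : F)
            linear_combination hR + this
          refine ⟨some ((R + 1) / z), (1, x), ?_⟩
          rw [psiW_some, one_smul, key _ hR', key2]
          have e : (R + 1) ^ 3 = R ^ 3 + (R ^ 2 + R) + 1 := by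
            have := two_eq_zero' (F := F)
            linear_combination (R ^ 2 + R) * this
          rw [e, Tr_add, Tr_add, Tr_add, Tr_sq, zmod2_add_self, add_zero, hT]
          have : Tr (R ^ 3) + 1 = c := by
            clear h
            revert hc
            generalize Tr (R ^ 3) = t
            revert c t; decide
          rw [this]
  · rintro ⟨(_ | r), ⟨a, x⟩, rfl⟩
    · rw [psiW_none]
      simp only [fW, PP_zero hw, zero_mul, Tr_zero]
      revert a; decide
    · rw [psiW_some]
      simp only [fW]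
      rcases zmod2_cases a with ha | ha
      · subst ha
        have h1 : Tr (x * (r ^ 4 * x + (0 : ZMod 2) • r) ^ 3) = Tr (r ^ 3 * x) := by
          rw [← Tr_pow4 (r ^ 3 * x)]
          congr 1
          rw [zero_smul]; ring
        rw [h1]
        generalize Tr (r ^ 3 * x) = t
        generalize Tr (PP w x * (r ^ 4 * x + (0 : ZMod 2) • r)) = u
        revert t u; decide
      · subst ha
        have h1 : Tr (PP w x * (r ^ 4 * x + (1 : ZMod 2) • r)) = 0 := by
          have e : PP w x * (r ^ 4 * x + (1 : ZMod 2) • r) = (r * PP w x) ^ 4 + r * PP w x := by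
            rw [one_smul]
            have := PP_cube hw hF x
            linear_combination -(PP w x * r ^ 4) * this
          rw [e, Tr_add, Tr_pow4, zmod2_add_self]
        rw [h1]
        generalize Tr (r ^ 3 * x) = t
        generalize Tr (x * (r ^ 4 * x + (1 : ZMod 2) • r) ^ 3) = u
        revert t u; decide

theorem deg_PP (w : ℕ) : degLE w (fun x : F => PP w x) := by
  have h := degLE_prod (V := F) (R := F) (range w) (fun i x => x ^ 4 ^ i) (by
    intro i _
    apply degLE_of_eq _ (degLE_addHom (frob (F := F) (2 * i)))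
    intro x
    rw [frob_apply, pow_mul]; norm_num)
  rw [Finset.card_range] at h
  exact h

theorem deg_QQ (w : ℕ) : degLE (w - 1) (fun x : F => QQ w x) := by
  have h := degLE_prod (V := F) (R := F) (range (w - 1)) (fun i x => x ^ (2 * 4 ^ i)) (by
    intro i _
    apply degLE_of_eq _ (degLE_addHom (frob (F := F) (2 * i + 1)))
    intro x
    rw [frob_apply]
    have e : 2 ^ (2 * i + 1) = 2 * 4 ^ i := by rw [pow_succ, pow_mul]; norm_num; ring
    rw [e])
  rw [Finset.card_range] at h
  exact h

theorem fW_deg {w : ℕ} (hw : 2 ≤ w) : degLE (w + 2) (fW (F := F) w) := by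
  have hc : degLE 1 (fun _ : VV F => (1 : ZMod 2)) := degLE_const 1 1
  have h0 : degLE 1 (fun v : VV F => 1 + v.1.1) := degLE_add 1 hc deg_a
  have hy2 : degLE 1 (fun v : VV F => v.2.1 ^ 2) := by
    have := degLE_map 1 (frob (F := F) 1) (deg_y (F := F))
    apply degLE_of_eq _ this
    intro v; rw [frob_apply]; norm_num
  have h1 : degLE 3 (fun v : VV F => Tr (v.1.2 * v.2.1 ^ 3)) := by
    have a1 := degLE_mul (a := 1) (b := 1) (deg_x (F := F)) (deg_y (F := F))
    have a2 := degLE_mul (a := 2) (b := 1) a1 hy2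
    have a3 := degLE_map 3 (TrHom (F := F)) a2
    apply degLE_of_eq _ a3
    intro v
    rw [TrHom_apply]; congr 1; ring
  have h2 : degLE 3 (fun v : VV F => v.2.2 + Tr (v.1.2 * v.2.1 ^ 3)) :=
    degLE_add 3 (degLE_mono (by norm_num) deg_c) h1
  have h3 := degLE_mul (a := 1) (b := 3) h0 h2
  have h4 : degLE (w + 1) (fun v : VV F => Tr (PP w v.1.2 * v.2.1)) := by
    have a1 : degLE w (fun v : VV F => PP w v.1.2) :=
      degLE_comp w ((AddMonoidHom.snd (ZMod 2) F).comp
        (AddMonoidHom.fst (ZMod 2 × F) (F × ZMod 2))) (deg_PP (F := F) w)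
    have a2 := degLE_mul (a := w) (b := 1) a1 deg_y
    exact degLE_map (w + 1) (TrHom (F := F)) a2
  have h5 := degLE_mul (a := 1) (b := w + 1) (deg_a (F := F)) h4
  have e : 1 + (w + 1) = w + 2 := by ring
  rw [e] at h5
  exact degLE_add (w + 2) (degLE_add (w + 2) (degLE_const (1 : ZMod 2) _)
    (degLE_mono (by omega) h3)) h5

theorem degLE_of_Tr {V : Type*} [AddCommGroup V] (k : ℕ) : ∀ {h : V → F},
    (∀ y, degLE k (fun x => Tr (h x * y))) → degLE k h := by
  induction k with
  | zero =>
    intro h hh x x'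
    have : h x - h x' = 0 := by
      apply eq_zero_of_Tr
      intro y
      have h1 := hh y x x'
      simp only [] at h1
      have e : (h x - h x') * y = h x * y - h x' * y := by ring
      rw [e]
      have : Tr (h x * y - h x' * y) = Tr (h x * y) - Tr (h x' * y) := map_sub _ _ _
      rw [this, h1, sub_self]
    exact sub_eq_zero.1 this
  | succ k ih =>
    intro h hh a
    apply ih
    intro y
    have h1 := hh y a
    apply degLE_of_eq _ h1
    intro x
    simp only [der]
    have e : (h (x + a) - h x) * y = h (x + a) * y - h x * y := by ring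
    rw [e]
    exact (map_sub (Algebra.trace (ZMod 2) F) _ _).symm

theorem fW_not_deg {w : ℕ} (hw : 2 ≤ w) (hF : finrank (ZMod 2) F = 2 * w - 1) :
    ¬ degLE (w + 1) (fW (F := F) w) := by
  intro h
  -- the function x ↦ PP w x has degree at most w-1
  have h1 : degLE (w - 1) (fun x : F => PP w x) := by
    apply degLE_of_Tr
    intro y
    obtain ⟨k, rfl⟩ : ∃ k, w = k + 1 := ⟨w - 1, by omega⟩
    rw [Nat.add_sub_cancel]
    have h2 := h ((1, 0), (0, 0)) ((0, 0), (y, 0))
    have h3 := degLE_comp k ((AddMonoidHom.inl (ZMod 2 × F) (F × ZMod 2)).comp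
      (AddMonoidHom.inr (ZMod 2) F)) h2
    have h4 : degLE k (fun x : F => Tr (x * y ^ 3)) := by
      apply degLE_mono (show 1 ≤ k by omega)
      have := degLE_addHom ((TrHom (F := F)).comp (AddMonoidHom.mulRight (y ^ 3)))
      exact this
    have h5 := degLE_add k h3 h4
    apply degLE_of_eq _ h5
    intro x
    simp only [der, fW, AddMonoidHom.comp_apply, AddMonoidHom.inl_apply, AddMonoidHom.inr_apply,
      Prod.fst_add, Prod.snd_add, Prod.mk_add_mk, Prod.fst_zero, Prod.snd_zero,
      zero_add, add_zero, mul_zero, zero_mul, Tr_zero, mul_one, sub_self]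
    have e0 : (0 : F) ^ 3 = 0 := by ring
    simp only [e0, mul_zero, Tr_zero]
    generalize Tr (x * y ^ 3) = t
    generalize Tr (PP (k + 1) x * y) = u
    revert t u; decide
  have := Fintype.ofFinite F
  have : Module.Finite (ZMod 2) F := Module.Finite.of_finite
  have h2 := degLE_mul h1 (deg_QQ (F := F) w)
  have h3 := sum_univ (V := F) (R := F) F_add_self _ _ h2 (by rw [hF]; omega)
  classical
  have h4 : ∀ x : F, PP w x * QQ w x = if x = 0 then 0 else 1 := by
    intro x
    split_ifs with hx
    · rw [hx, PP_zero (by omega), zero_mul]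
    · exact PQ (by omega) hF hx
  simp only [h4] at h3
  rw [Finset.sum_ite] at h3
  simp only [Finset.sum_const_zero, zero_add, Finset.sum_const, nsmul_eq_mul, mul_one] at h3
  rw [Finset.filter_not, Finset.filter_eq' Finset.univ (0 : F), if_pos (Finset.mem_univ _),
    Finset.card_sdiff_of_subset (Finset.subset_univ _), Finset.card_singleton,
    Finset.card_univ] at h3
  have hc : Fintype.card F = 2 ^ finrank (ZMod 2) F := by
    have := Module.card_eq_pow_finrank (K := ZMod 2) (V := F)
    rw [ZMod.card] at this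
    exact this
  have hc2 : Fintype.card F - 1 + 1 = Fintype.card F := by
    have := Fintype.card_pos (α := F)
    omega
  have h5 : ((Fintype.card F - 1 : ℕ) : F) + 1 = (Fintype.card F : F) := by
    exact_mod_cast congrArg (fun n : ℕ => (n : F)) hc2
  have h6 : (Fintype.card F : F) = 0 := by
    rw [hc]; push_cast
    rw [two_eq_zero', zero_pow]
    rw [hF]; omega
  rw [h3, h6, zero_add] at h5
  exact one_ne_zero h5

end ftw

theorem ftw_mem (m : ℕ) (hm : 4 ≤ m) (he : Even m) : m / 2 + 2 ∈ D m := by
  obtain ⟨w, hw⟩ := he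
  have hmw : m = 2 * w := by omega
  subst hmw
  have hw2 : 2 ≤ w := by omega
  have hfin : finrank (ZMod 2) (GaloisField 2 (2 * w - 1)) = 2 * w - 1 :=
    GaloisField.finrank 2 (by omega)
  have hT : Tr (1 : GaloisField 2 (2 * w - 1)) = 1 := by
    rw [Tr_one, hfin]
    obtain ⟨k, rfl⟩ : ∃ k, w = k + 1 := ⟨w - 1, by omega⟩
    have : 2 * (k + 1) - 1 = 2 * k + 1 := by omega
    rw [this]; push_cast
    have : (2 : ZMod 2) = 0 := by decide
    rw [this, zero_mul, zero_add]
  have h := mem_D_fam (F := GaloisField 2 (2 * w - 1)) (d := w + 2) psiW psiW_inj (psiW_dis hT)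
    (fW w) (fW_iff (by omega) hfin hT) (fW_deg hw2) (by omega) (fW_not_deg hw2 hfin)
  rw [hfin, Nat.sub_add_cancel (by omega)] at h
  have e : 2 * w / 2 + 2 = w + 2 := by omega
  rw [e]; exact h

end Pool.Agent.helper65.PS
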