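import Mathlib
import Pool.Agent.helper65.PS.Fld

/-! The cubic (and quadratic) family. -/

namespace Pool.Agent.helper65.PS

open Finset Module

section gam

variable {F : Type} [Field F] [Finite F] [Algebra (ZMod 2) F]

/-- the members `E_infinity` and `E_s` -/
noncomputable def psiG (g : F) : Option F → (ZMod 2 × F →+ VV F)
  | none => AddMonoidHom.mk' (fun p => ((p.1, 0), (p.2, p.1)))
      (by intro p q; ext <;> simp)
  | some s => AddMonoidHom.mk' (fun p => ((p.1, p.2), (s ^ 2 * p.2 + p.1 • s, Tr (g * s * p.2))))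
      (by
        intro p q
        ext
        · simp
        · simp
        · simp only [Prod.fst_add, Prod.snd_add, add_smul]; ring
        · simp only [Prod.fst_add, Prod.snd_add, mul_add, Tr_add])

theorem psiG_none (g : F) (a : ZMod 2) (y : F) : psiG g none (a, y) = ((a, 0), (y, a)) := rfl

theorem psiG_some (g s : F) (a : ZMod 2) (x : F) :
    psiG g (some s) (a, x) = ((a, x), (s ^ 2 * x + a • s, Tr (g * s * x))) := rfl

/-- the function -/
noncomputable def fG (g : F) (v : VV F) : ZMod 2 :=
  1 + (1 + v.1.1) * v.2.2 + Tr (g ^ 2 * v.1.2 * v.2.1) + v.1.1 * Tr ((g ^ 2 + 1) * v.1.2 * v.2.1)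

theorem psiG_inj (g : F) : ∀ i p, psiG g i p = 0 → p = 0 := by
  rintro (_ | s) ⟨a, x⟩ h
  · rw [psiG_none] at h
    simp only [Prod.mk_eq_zero] at h
    simp [h.1.1, h.2.1]
  · rw [psiG_some] at h
    simp only [Prod.mk_eq_zero] at h
    simp [h.1.1, h.1.2]

theorem psiG_dis (g : F) (hg : Tr g = 1) :
    ∀ i j, i ≠ j → ∀ p q, psiG g i p = psiG g j q → psiG g i p = 0 := by
  rintro (_ | s) (_ | t) hij ⟨a, x⟩ ⟨b, y⟩ h
  · exact absurd rfl hij
  · rw [psiG_none, psiG_some] at h
    simp only [Prod.mk.injEq] at h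
    obtain ⟨⟨h1, h2⟩, h3, h4⟩ := h
    subst h2
    rw [mul_zero, Tr_zero] at h4
    subst h4
    rw [← h1] at h3
    rw [psiG_none, h3]
    simp
  · rw [psiG_none, psiG_some] at h
    simp only [Prod.mk.injEq] at h
    obtain ⟨⟨h1, h2⟩, h3, h4⟩ := h
    subst h2
    rw [mul_zero, Tr_zero] at h4
    rw [← h4] at h1
    subst h1
    rw [psiG_some]
    simp [Tr_zero]
  · rw [psiG_some, psiG_some] at h
    simp only [Prod.mk.injEq] at h
    obtain ⟨⟨h1, h2⟩, h3, h4⟩ := h
    subst h1 h2
    have hst : s + t ≠ 0 := by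
      intro h0
      apply hij
      have := F_add_self t
      congr 1
      linear_combination h0 - this
    rcases zmod2_cases a with ha | ha
    · subst ha
      have h5 : (s + t) ^ 2 * x = 0 := by
        rw [sq_add]
        simp only [zero_smul, add_zero] at h3
        have := F_add_self (t ^ 2 * x)
        linear_combination h3 + this
      have hx : x = 0 := by
        rcases mul_eq_zero.1 h5 with h6 | h6
        · exact absurd (pow_eq_zero_iff two_ne_zero |>.1 h6) hst
        · exact h6
      subst hx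
      rw [psiG_some]
      simp [Tr_zero]
    · exfalso
      subst ha
      simp only [one_smul] at h3
      have h5 : (s + t) * ((s + t) * x) = (s + t) * 1 := by
        have := F_add_self (t ^ 2 * x)
        have h2 := two_eq_zero' (F := F)
        have h6 := F_add_self s
        linear_combination h3 + this + s * t * x * h2 - h6
      have h6 := mul_left_cancel₀ hst h5
      have h7 : Tr (g * s * x) + Tr (g * t * x) = 1 := by
        rw [← Tr_add, ← hg]
        congr 1
        linear_combination g * h6
      rw [h4, zmod2_add_self] at h7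
      exact zero_ne_one h7

theorem fG_iff (g : F) (hg : Tr g = 1) (v : VV F) :
    fG g v = 1 ↔ ∃ i p, psiG g i p = v := by
  constructor
  · obtain ⟨⟨a, x⟩, ⟨y, c⟩⟩ := v
    intro h
    simp only [fG] at h
    rcases zmod2_cases a with ha | ha
    · subst ha
      have hc : c = Tr (g ^ 2 * x * y) := by
        revert h
        generalize Tr (g ^ 2 * x * y) = t
        generalize Tr ((g ^ 2 + 1) * x * y) = u
        revert c t u; decide
      by_cases hx : x = 0
      · subst hx
        refine ⟨none, (0, y), ?_⟩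
        rw [psiG_none, hc]
        simp [Tr_zero]
      · obtain ⟨s, hs⟩ := sq_surj (y / x)
        refine ⟨some s, (0, x), ?_⟩
        rw [psiG_some, hc]
        have h1 : s ^ 2 * x = y := by rw [hs]; field_simp
        have h2 : Tr (g * s * x) = Tr (g ^ 2 * x * y) := by
          rw [← Tr_sq (g * s * x)]
          congr 1
          rw [← h1]; ring
        simp [h1, h2]
    · subst ha
      have ht : Tr (x * y) = 0 := by
        have e : (g ^ 2 + 1) * x * y = g ^ 2 * x * y + x * y := by ring
        rw [e, Tr_add] at h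
        revert h
        generalize Tr (g ^ 2 * x * y) = t
        generalize Tr (x * y) = u
        revert c t u; decide
      by_cases hx : x = 0
      · subst hx
        rcases zmod2_cases c with hc | hc
        · subst hc
          refine ⟨some y, (1, 0), ?_⟩
          rw [psiG_some]; simp [Tr_zero]
        · subst hc
          refine ⟨none, (1, y), ?_⟩
          rw [psiG_none]
      · obtain ⟨R, hR⟩ := artin_schreier _ ht
        have key : ∀ Q : F, Q ^ 2 + Q = x * y → (Q / x) ^ 2 * x + Q / x = y := by
          intro Q hQ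
          have : (Q / x) ^ 2 * x + Q / x = (Q ^ 2 + Q) / x := by field_simp
          rw [this, hQ]; field_simp
        have key2 : ∀ Q : F, g * (Q / x) * x = g * Q := by intro Q; field_simp
        by_cases hc : c = Tr (g * R)
        · refine ⟨some (R / x), (1, x), ?_⟩
          rw [psiG_some, one_smul, key R hR, key2, hc]
        · have hR' : (R + 1) ^ 2 + (R + 1) = x * y := by
            have := two_eq_zero' (F := F)
            linear_combination hR + (R + 1) * this
          refine ⟨some ((R + 1) / x), (1, x), ?_⟩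
          rw [psiG_some, one_smul, key _ hR', key2, mul_add, Tr_add, mul_one, hg]
          have : Tr (g * R) + 1 = c := by
            clear h
            revert hc
            generalize Tr (g * R) = t
            revert c t; decide
          rw [this]
  · rintro ⟨(_ | s), ⟨a, x⟩, rfl⟩
    · rw [psiG_none]
      simp only [fG, mul_zero, zero_mul, Tr_zero]
      revert a; decide
    · rw [psiG_some]
      simp only [fG]
      rcases zmod2_cases a with ha | ha
      · subst ha
        have h1 : Tr (g ^ 2 * x * (s ^ 2 * x + (0 : ZMod 2) • s)) = Tr (g * s * x) := by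
          rw [← Tr_sq (g * s * x)]
          congr 1
          rw [zero_smul]; ring
        rw [h1]
        generalize Tr (g * s * x) = t
        generalize Tr ((g ^ 2 + 1) * x * (s ^ 2 * x + (0 : ZMod 2) • s)) = u
        revert t u; decide
      · subst ha
        have h1 : Tr ((g ^ 2 + 1) * x * (s ^ 2 * x + (1 : ZMod 2) • s))
            = Tr (g ^ 2 * x * (s ^ 2 * x + (1 : ZMod 2) • s)) := by
          have e : (g ^ 2 + 1) * x * (s ^ 2 * x + (1 : ZMod 2) • s)
              = g ^ 2 * x * (s ^ 2 * x + (1 : ZMod 2) • s) + ((s * x) ^ 2 + s * x) := by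
            rw [one_smul]; ring
          rw [e, Tr_add, Tr_add, Tr_sq, zmod2_add_self, add_zero]
        rw [h1]
        generalize Tr (g * s * x) = t
        generalize Tr (g ^ 2 * x * (s ^ 2 * x + (1 : ZMod 2) • s)) = u
        revert t u; decide

theorem fG_deg3 (g : F) : degLE 3 (fG g) := by
  have h0 : degLE 1 (fun v : VV F => 1 + v.1.1) :=
    degLE_add 1 (degLE_const (1 : ZMod 2) 1) deg_a
  have h1 : degLE 2 (fun v : VV F => (1 + v.1.1) * v.2.2) :=
    degLE_mul (a := 1) (b := 1) h0 deg_c
  have h2 := degLE_mul (a := 1) (b := 2) (deg_a (F := F)) (deg_Trxy (g ^ 2 + 1))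
  exact degLE_add 3 (degLE_add 3 (degLE_add 3 (degLE_const (1 : ZMod 2) 3) (degLE_succ 2 h1))
    (degLE_succ 2 (deg_Trxy (g ^ 2)))) h2

theorem fG_not_deg2 (g : F) (hg : g ≠ 1) : ¬ degLE 2 (fG g) := by
  intro h
  apply hg
  have key : g ^ 2 + 1 = 0 := by
    by_contra hne
    obtain ⟨y, hy⟩ := exists_Tr_mul_one hne
    have h1 := h ((1, 0), (0, 0)) ((0, 1), (0, 0)) ((0, 0), (y, 0)) 0
    simp only [der, fG, Prod.fst_add, Prod.snd_add, Prod.mk_add_mk, Prod.fst_zero, Prod.snd_zero,
      zero_add, add_zero, mul_zero, zero_mul, Tr_zero, mul_one, sub_self] at h1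
    have e : (g ^ 2 + 1) * y = g ^ 2 * y + y := by ring
    rw [e, Tr_add] at hy h1
    revert h1 hy
    generalize Tr (g ^ 2 * y) = t
    generalize Tr y = u
    revert t u; decide
  have h2 : (g + 1) ^ 2 = 0 := by rw [sq_add]; simpa using key
  have h3 : g + 1 = 0 := pow_eq_zero_iff two_ne_zero |>.1 h2
  have := F_add_self (1 : F)
  linear_combination h3 - this

theorem fG_one_deg2 : degLE 2 (fG (1 : F)) := by
  have h0 : degLE 1 (fun v : VV F => 1 + v.1.1) :=
    degLE_add 1 (degLE_const (1 : ZMod 2) 1) deg_a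
  have h1 : degLE 2 (fun v : VV F => (1 + v.1.1) * v.2.2) :=
    degLE_mul (a := 1) (b := 1) h0 deg_c
  have h3 := degLE_add 2 (degLE_add 2 (degLE_const (V := VV F) (1 : ZMod 2) 2) h1)
    (deg_Trxy (1 ^ 2))
  apply degLE_of_eq _ h3
  intro v
  have e : ((1 : F) ^ 2 + 1) = 0 := by
    have := F_add_self (1 : F)
    rw [one_pow, this]
  simp only [fG, e, zero_mul, Tr_zero, mul_zero, add_zero]

theorem fG_one_not_deg1 : ¬ degLE 1 (fG (1 : F)) := by
  intro h
  have h1 := h ((1, 0), (0, 0)) ((0, 0), (0, 1)) 0
  simp only [der, fG, Prod.fst_add, Prod.snd_add, Prod.mk_add_mk, Prod.fst_zero, Prod.snd_zero,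
      zero_add, add_zero, mul_zero, zero_mul, Tr_zero, mul_one, sub_self] at h1
  revert h1; decide

theorem three_mem_aux (h2 : 2 ≤ finrank (ZMod 2) F) : 3 ∈ D (finrank (ZMod 2) F + 1) := by
  obtain ⟨g, hg, hg1⟩ : ∃ g : F, Tr g = 1 ∧ g ≠ 1 := by
    obtain ⟨z, hz⟩ := exists_Tr_one (F := F)
    by_cases h1 : z = 1
    · subst h1
      have : Module.Finite (ZMod 2) F := Module.Finite.of_finite
      have hr := LinearMap.finrank_range_add_finrank_ker (Algebra.trace (ZMod 2) F)
      rw [LinearMap.range_eq_top.2 (Algebra.trace_surjective (ZMod 2) F), finrank_top,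
        finrank_self] at hr
      have hne : LinearMap.ker (Algebra.trace (ZMod 2) F) ≠ ⊥ := by
        intro h
        rw [h, finrank_bot] at hr
        omega
      obtain ⟨u, hu, hu0⟩ := (Submodule.ne_bot_iff _).1 hne
      refine ⟨1 + u, ?_, ?_⟩
      · rw [Tr_add, hz]
        have : Tr u = 0 := hu
        rw [this, add_zero]
      · intro h; exact hu0 (by simpa using h)
    · exact ⟨z, hz, h1⟩
  exact mem_D_fam (psiG g) (psiG_inj g) (psiG_dis g hg) (fG g) (fG_iff g hg) (fG_deg3 g)
    (by norm_num) (fG_not_deg2 g hg1)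

theorem two_mem_aux (h2 : Odd (finrank (ZMod 2) F)) : 2 ∈ D (finrank (ZMod 2) F + 1) := by
  have hg : Tr (1 : F) = 1 := by
    rw [Tr_one]
    obtain ⟨k, hk⟩ := h2
    rw [hk]; push_cast
    have : (2 : ZMod 2) = 0 := by decide
    rw [this, zero_mul, zero_add]
  exact mem_D_fam (psiG 1) (psiG_inj 1) (psiG_dis 1 hg) (fG 1) (fG_iff 1 hg) fG_one_deg2
    (by norm_num) fG_one_not_deg1

end gam

theorem three_mem (m : ℕ) (hm : 3 ≤ m) : 3 ∈ D m := by
  have h := three_mem_aux (F := GaloisField 2 (m - 1)) (by
    rw [GaloisField.finrank 2 (by omega)]; omega)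
  rw [GaloisField.finrank 2 (by omega)] at h
  rwa [Nat.sub_add_cancel (by omega)] at h

theorem two_mem (m : ℕ) (hm : 2 ≤ m) (he : Even m) : 2 ∈ D m := by
  have h := two_mem_aux (F := GaloisField 2 (m - 1)) (by
    rw [GaloisField.finrank 2 (by omega)]
    obtain ⟨k, hk⟩ := he
    exact ⟨k - 1, by omega⟩)
  rw [GaloisField.finrank 2 (by omega)] at h
  rwa [Nat.sub_add_cancel (by omega)] at h

end Pool.Agent.helper65.PS
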