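import Mathlib
import Pool.Agent.helper65.PS.Fld

/-! The family of degree five. -/

namespace Pool.Agent.helper65.PS

open Finset Module

section quint

variable {F : Type} [Field F] [Finite F] [Algebra (ZMod 2) F]

set_option linter.unusedSectionVars false

/-- the members -/
noncomputable def psiQ (h : F) : Option F → (ZMod 2 × F →+ VV F)
  | none => AddMonoidHom.mk' (fun p => ((p.1, 0), (p.2, 0)))
      (by intro p q; ext <;> simp)
  | some s => AddMonoidHom.mk' (fun p => ((Tr (h ^ 2 * (s * p.2)), p.2),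
      (s ^ 2 * p.2 + (p.1 + Tr (h * (s * p.2))) • s + Tr (h ^ 2 * (s * p.2)) • (h⁻¹ * s), p.1)))
      (by
        intro p q
        ext
        · simp [mul_add, Tr_add]
        · simp
        · simp only [Prod.fst_add, Prod.snd_add, mul_add, Tr_add, add_smul]; ring
        · simp)

theorem psiQ_none (h : F) (a : ZMod 2) (y : F) : psiQ h none (a, y) = ((a, 0), (y, 0)) := rfl

theorem psiQ_some (h s : F) (c : ZMod 2) (x : F) :
    psiQ h (some s) (c, x) = ((Tr (h ^ 2 * (s * x)), x),
      (s ^ 2 * x + (c + Tr (h * (s * x))) • s + Tr (h ^ 2 * (s * x)) • (h⁻¹ * s), c)) := rfl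

theorem psiQ_inj (h : F) : ∀ i p, psiQ h i p = 0 → p = 0 := by
  rintro (_ | s) ⟨a, x⟩ h
  · rw [psiQ_none] at h
    simp only [Prod.mk_eq_zero] at h
    simp [h.1.1, h.2.1]
  · rw [psiQ_some] at h
    simp only [Prod.mk_eq_zero] at h
    simp [h.1.2, h.2.2]

theorem psiQ_zero (h s : F) : psiQ h (some s) (0, 0) = 0 := map_zero _

variable {h : F}

theorem h_ne_zero (hh : Tr h = 1) : h ≠ 0 := by
  rintro rfl
  rw [Tr_zero] at hh
  exact zero_ne_one hh

theorem Tr_hinv_aux (h0 : h ≠ 0) (S : F) : h ^ 2 * (h⁻¹ * S) = h * S := by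
  field_simp

theorem psiQ_dis (hh : Tr h = 1) (h1 : Tr (1 : F) = 0) :
    ∀ i j, i ≠ j → ∀ p q, psiQ h i p = psiQ h j q → psiQ h i p = 0 := by
  have h0 := h_ne_zero hh
  rintro (_ | s) (_ | t) hij ⟨a, x⟩ ⟨b, y⟩ H
  · exact absurd rfl hij
  · rw [psiQ_none, psiQ_some] at H
    simp only [Prod.mk.injEq] at H
    obtain ⟨⟨e1, e2⟩, e3, e4⟩ := H
    subst e2 e4
    simp only [mul_zero, Tr_zero, add_zero, zero_smul] at e1 e3
    rw [psiQ_none, e1, e3]
    simp
  · rw [psiQ_none, psiQ_some] at H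
    simp only [Prod.mk.injEq] at H
    obtain ⟨⟨e1, e2⟩, e3, e4⟩ := H
    subst e2 e4
    exact psiQ_zero h s
  · rw [psiQ_some, psiQ_some] at H
    simp only [Prod.mk.injEq] at H
    obtain ⟨⟨e1, e2⟩, e3, e4⟩ := H
    subst e2 e4
    obtain ⟨d, rfl⟩ : ∃ d, t = s + d := ⟨t - s, by ring⟩
    have hd : d ≠ 0 := by
      intro h0
      apply hij
      rw [h0, add_zero]
    -- traces of `d x`
    have t1 : Tr (h ^ 2 * (d * x)) = 0 := by
      have e : h ^ 2 * ((s + d) * x) = h ^ 2 * (s * x) + h ^ 2 * (d * x) := by ring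
      rw [e, Tr_add] at e1
      simpa using e1
    have eb : Tr (h * ((s + d) * x)) = Tr (h * (s * x)) + Tr (h * (d * x)) := by
      rw [← Tr_add]; congr 1; ring
    rw [← e1, eb, sq_add] at e3
    have h2 := two_eq_zero' (F := F)
    rcases zmod2_cases (Tr (h * (d * x))) with hb | hb
    · -- equal traces
      rw [hb, add_zero] at e3
      have e5 : d * (d * x + (a + Tr (h * (s * x))) • (1 : F) + Tr (h ^ 2 * (s * x)) • h⁻¹) = 0 := by
        have s1 : ∀ (k : ZMod 2) (z : F), k • (s + d) * z = (k • s) * z + k • (d * z) := by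
          intro k z; rw [smul_add, add_mul, smul_mul_assoc]; simp
        simp only [Algebra.smul_def, map_add] at e3 ⊢
        linear_combination -e3
      have e6 : d * x + (a + Tr (h * (s * x))) • (1 : F) + Tr (h ^ 2 * (s * x)) • h⁻¹ = 0 := by
        rcases mul_eq_zero.1 e5 with h6 | h6
        · exact absurd h6 hd
        · exact h6
      -- apply the two traces
      have e7 : Tr (h * (d * x)) + (a + Tr (h * (s * x))) * Tr h
          + Tr (h ^ 2 * (s * x)) * Tr (1 : F) = 0 := by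
        rw [← Tr_smul, ← Tr_smul, ← Tr_add, ← Tr_add, ← Tr_zero (F := F)]
        congr 1
        have : h * (d * x + (a + Tr (h * (s * x))) • (1 : F) + Tr (h ^ 2 * (s * x)) • h⁻¹) = 0 := by
          rw [e6, mul_zero]
        rw [← this]
        simp only [Algebra.smul_def]
        field_simp
      have e8 : Tr (h ^ 2 * (d * x)) + (a + Tr (h * (s * x))) * Tr (h ^ 2)
          + Tr (h ^ 2 * (s * x)) * Tr h = 0 := by
        rw [← Tr_smul, ← Tr_smul, ← Tr_add, ← Tr_add, ← Tr_zero (F := F)]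
        congr 1
        have : h ^ 2 * (d * x + (a + Tr (h * (s * x))) • (1 : F) + Tr (h ^ 2 * (s * x)) • h⁻¹)
            = 0 := by
          rw [e6, mul_zero]
        rw [← this]
        simp only [Algebra.smul_def]
        field_simp
      rw [hb, h1, hh, mul_zero, add_zero, zero_add, mul_one] at e7
      rw [t1, Tr_sq, hh, mul_one, mul_one, e7, zero_add, zero_add] at e8
      rw [e7, e8, zero_smul, zero_smul, add_zero, add_zero] at e6
      have hx : x = 0 := by
        rcases mul_eq_zero.1 e6 with h6 | h6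
        · exact absurd h6 hd
        · exact h6
      subst hx
      rw [mul_zero, mul_zero, Tr_zero, add_zero] at e7
      subst e7
      exact psiQ_zero h s
    · -- different traces
      exfalso
      rw [hb] at e3
      -- T = D^2 + (c+β) D + a h⁻¹ D
      have e5 : (s + d) * x = (d * x) ^ 2 + (a + Tr (h * (s * x))) • (d * x)
          + Tr (h ^ 2 * (s * x)) • (h⁻¹ * (d * x)) := by
        simp only [Algebra.smul_def, map_add, map_one] at e3 ⊢
        linear_combination (-x) * e3 - (d * x * algebraMap (ZMod 2) F a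
          + d * x * algebraMap (ZMod 2) F (Tr (h * (s * x)))
          + d * x * algebraMap (ZMod 2) F (Tr (h ^ 2 * (s * x))) * h⁻¹ + d ^ 2 * x ^ 2) * h2
      have e6 : Tr (h ^ 2 * ((s + d) * x)) = Tr (h * (d * x))
          + (a + Tr (h * (s * x))) * Tr (h ^ 2 * (d * x))
          + Tr (h ^ 2 * (s * x)) * Tr (h * (d * x)) := by
        rw [← Tr_smul, ← Tr_smul, ← Tr_sq (h * (d * x)), ← Tr_add]
        have e7 : Tr (h ^ 2 * (s * x)) • (h * (d * x)) = Tr (h ^ 2 * (s * x)) • (h ^ 2 * (h⁻¹ * (d * x))) := by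
          rw [Tr_hinv_aux h0]
        rw [← Tr_add]
        congr 1
        rw [e5, e7]
        simp only [Algebra.smul_def]
        ring
      rw [← e1, hb, t1, mul_zero, add_zero, mul_one] at e6
      have : ∀ z : ZMod 2, z ≠ 1 + z := by decide
      exact this _ e6

/-- the function in terms of the five quadratic forms -/
def phi (a c l0 l1 l2 l3 l4 : ZMod 2) : ZMod 2 :=
  (1 + a) * (1 + c * (l0 + l2) + l2 + l1 * (l0 + l2))
    + a * (c * (1 + l1) + 1 + l3 + l1 * (l3 + l4))

/-- the function -/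
noncomputable def fQ (h w : F) (v : VV F) : ZMod 2 :=
  phi v.1.1 v.2.2 (Tr (1 * v.1.2 * v.2.1)) (Tr (h ^ 2 * v.1.2 * v.2.1)) (Tr (h ^ 4 * v.1.2 * v.2.1))
    (Tr (w * h ^ 2 * v.1.2 * v.2.1)) (Tr (h ^ 2 / (1 + h ^ 2) * v.1.2 * v.2.1))

theorem one_add_h_ne (hh : Tr h = 1) (h1 : Tr (1 : F) = 0) : 1 + h ≠ 0 := by
  intro h2
  have : h = 1 := by
    have := F_add_self (1 : F)
    linear_combination h2 - this
  rw [this, h1] at hh
  exact zero_ne_one hh

theorem core (hh : Tr h = 1) (h1 : Tr (1 : F) = 0) {w : F} (hw : w ^ 2 + w = 1)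
    (a c : ZMod 2) (W : F) :
    (∃ S, Tr (h ^ 2 * S) = a ∧ S ^ 2 + (c + Tr (h * S)) • S + a • (h⁻¹ * S) = W) ↔
      phi a c (Tr W) (Tr (h ^ 2 * W)) (Tr (h ^ 4 * W)) (Tr (w * h ^ 2 * W))
        (Tr (h ^ 2 / (1 + h ^ 2) * W)) = 1 := by
  have h0 := h_ne_zero hh
  have h2 := two_eq_zero' (F := F)
  have hk0 := one_add_h_ne hh h1
  have hk1 : 1 + h ^ 2 ≠ 0 := by
    have : 1 + h ^ 2 = (1 + h) ^ 2 := by rw [sq_add]; ring
    rw [this]; exact pow_ne_zero 2 hk0
  have hT2 : Tr (h ^ 2) = 1 := by rw [Tr_sq, hh]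
  rcases zmod2_cases a with ha | ha
  · subst ha
    have hphi : ∀ c l0 l1 l2 l3 l4 : ZMod 2, phi 0 c l0 l1 l2 l3 l4 = 1 ↔
        (l2 = 0 ∧ l1 = c) ∨ (l0 = 0 ∧ l1 = c + 1) := by
      unfold phi; decide
    rw [hphi]
    constructor
    · rintro ⟨S, hS1, hS2⟩
      rw [zero_smul, add_zero] at hS2
      rcases zmod2_cases (c + Tr (h * S)) with hb | hb
      · left
        rw [hb, zero_smul, add_zero] at hS2
        subst hS2
        constructor
        · have : h ^ 4 * S ^ 2 = (h ^ 2 * S) ^ 2 := by ring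
          rw [this, Tr_sq, hS1]
        · have : h ^ 2 * S ^ 2 = (h * S) ^ 2 := by ring
          rw [this, Tr_sq]
          revert hb; generalize Tr (h * S) = t; revert c t; decide
      · right
        rw [hb, one_smul] at hS2
        subst hS2
        constructor
        · rw [Tr_add, Tr_sq, zmod2_add_self]
        · have : h ^ 2 * (S ^ 2 + S) = (h * S) ^ 2 + h ^ 2 * S := by ring
          rw [this, Tr_add, Tr_sq, hS1]
          revert hb; generalize Tr (h * S) = t; revert c t; decide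
    · rintro (⟨hl2, hl1⟩ | ⟨hl0, hl1⟩)
      · obtain ⟨S, rfl⟩ := sq_surj W
        have e1 : h ^ 4 * S ^ 2 = (h ^ 2 * S) ^ 2 := by ring
        have e2 : h ^ 2 * S ^ 2 = (h * S) ^ 2 := by ring
        rw [e1, Tr_sq] at hl2
        rw [e2, Tr_sq] at hl1
        refine ⟨S, hl2, ?_⟩
        rw [hl1, zmod2_add_self]; simp
      · obtain ⟨R, hR⟩ := artin_schreier W hl0
        obtain ⟨S, hS, hS2⟩ : ∃ S, S ^ 2 + S = W ∧ Tr (h ^ 2 * S) = 0 := by
          rcases zmod2_cases (Tr (h ^ 2 * R)) with hr | hr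
          · exact ⟨R, hR, hr⟩
          · refine ⟨R + 1, ?_, ?_⟩
            · linear_combination hR + (R + 1) * h2
            · rw [mul_add, mul_one, Tr_add, hr, hT2]; exact zmod2_add_self _
        refine ⟨S, hS2, ?_⟩
        have e : h ^ 2 * W = (h * S) ^ 2 + h ^ 2 * S := by rw [← hS]; ring
        rw [e, Tr_add, Tr_sq, hS2, add_zero] at hl1
        have hc1 : ∀ c : ZMod 2, c + (c + 1) = 1 := by decide
        have : c + Tr (h * S) = 1 := by rw [hl1]; exact hc1 c
        rw [this]; simpa using hS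
  · subst ha
    have hphi : ∀ c l0 l1 l2 l3 l4 : ZMod 2, phi 1 c l0 l1 l2 l3 l4 = 1 ↔
        (l1 = 0 ∧ l3 = c) ∨ (l4 = 0 ∧ l1 = 1) := by
      unfold phi; decide
    rw [hphi]
    have hTw : ∀ R : F, Tr (w * (R ^ 2 + R)) = Tr R := by
      intro R
      have e1 : w * (R ^ 2 + R) = (w ^ 2 * R) ^ 2 + (w ^ 2 * R + R) := by
        linear_combination (-(R ^ 2 * (w ^ 2 - w + 2)) + R) * hw
          + (R ^ 2 * (2 * w - 1) - R * w ^ 2) * h2
      rw [e1, Tr_add, Tr_add, Tr_sq]
      generalize Tr (w ^ 2 * R) = u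
      generalize Tr R = t
      revert t u; decide
    constructor
    · rintro ⟨S, hS1, hS2⟩
      rw [one_smul] at hS2
      rcases zmod2_cases (c + Tr (h * S)) with hb | hb
      · left
        rw [hb, zero_smul, add_zero] at hS2
        have e1 : h ^ 2 * W = (h * S) ^ 2 + h * S := by
          rw [← hS2]; field_simp
        constructor
        · rw [e1, Tr_add, Tr_sq, zmod2_add_self]
        · rw [mul_assoc, e1, hTw]
          revert hb; generalize Tr (h * S) = t; revert c t; decide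
      · right
        rw [hb, one_smul] at hS2
        have e1 : h ^ 2 / (1 + h ^ 2) * W = (h * S / (1 + h)) ^ 2 + h * S / (1 + h) := by
          have e2 : (1 + h) ^ 2 = 1 + h ^ 2 := by rw [sq_add]; ring
          rw [← hS2, div_pow, e2]
          field_simp
          linear_combination (S * h) * h2
        constructor
        · rw [e1, Tr_add, Tr_sq, zmod2_add_self]
        · have e2 : h ^ 2 * W = (h * S) ^ 2 + h ^ 2 * S + h * S := by
            rw [← hS2]; field_simp
          rw [e2, Tr_add, Tr_add, Tr_sq, hS1]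
          generalize Tr (h * S) = t; revert t; decide
    · rintro (⟨hl1, hl3⟩ | ⟨hl4, hl1⟩)
      · obtain ⟨R, hR⟩ := artin_schreier _ hl1
        obtain ⟨Q, hQ, hQ2⟩ : ∃ Q, Q ^ 2 + Q = h ^ 2 * W ∧ Tr (h * Q) = 1 := by
          rcases zmod2_cases (Tr (h * R)) with hr | hr
          · refine ⟨R + 1, ?_, ?_⟩
            · linear_combination hR + (R + 1) * h2
            · rw [mul_add, mul_one, Tr_add, hr, hh, zero_add]
          · exact ⟨R, hR, hr⟩
        refine ⟨h⁻¹ * Q, ?_, ?_⟩
        · rw [Tr_hinv_aux h0, hQ2]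
        · have e1 : h * (h⁻¹ * Q) = Q := by field_simp
          rw [mul_assoc, ← hQ, hTw] at hl3
          rw [e1, hl3, zmod2_add_self, zero_smul, one_smul, add_zero]
          field_simp
          linear_combination hQ
      · obtain ⟨R, hR⟩ := artin_schreier _ hl4
        obtain ⟨Q, hQ, hQ2⟩ : ∃ Q, Q ^ 2 + Q = h ^ 2 / (1 + h ^ 2) * W ∧ Tr ((h + 1) * Q) = c + 1 := by
          by_cases hr : Tr ((h + 1) * R) = c + 1
          · exact ⟨R, hR, hr⟩
          · refine ⟨R + 1, ?_, ?_⟩
            · linear_combination hR + (R + 1) * h2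
            · rw [mul_add, mul_one, Tr_add, Tr_add, hh, h1]
              revert hr; generalize Tr ((h + 1) * R) = t; revert c t; decide
        have e2 : (1 + h) ^ 2 = 1 + h ^ 2 := by rw [sq_add]; ring
        have e3 : h ^ 2 * W = (1 + h ^ 2) * (Q ^ 2 + Q) := by rw [hQ]; field_simp
        refine ⟨(1 + h) / h * Q, ?_, ?_⟩
        · -- Tr ((h^2+h) Q) = 1
          rw [e3] at hl1
          have e4 : (1 + h ^ 2) * (Q ^ 2 + Q) = (Q ^ 2 + Q) + ((h * Q) ^ 2 + h ^ 2 * Q) := by ring
          rw [e4, Tr_add, Tr_add, Tr_add, Tr_sq, Tr_sq, zmod2_add_self, zero_add, ← Tr_add] at hl1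
          rw [← hl1]; congr 1; field_simp
        · have e4 : h * ((1 + h) / h * Q) = (h + 1) * Q := by field_simp; ring
          have hc1 : ∀ c : ZMod 2, c + (c + 1) = 1 := by decide
          have e5 : c + (c + 1) = 1 := hc1 c
          rw [e4, hQ2, e5, one_smul, one_smul]
          have e6 : W = (1 + h ^ 2) / h ^ 2 * (Q ^ 2 + Q) := by
            field_simp
            linear_combination e3
          rw [e6]
          field_simp
          linear_combination (h * Q + h * Q ^ 2) * h2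

theorem fQ_iff (hh : Tr h = 1) (h1 : Tr (1 : F) = 0) {w : F} (hw : w ^ 2 + w = 1) (v : VV F) :
    fQ h w v = 1 ↔ ∃ i p, psiQ h i p = v := by
  obtain ⟨⟨a, x⟩, ⟨y, c⟩⟩ := v
  have hf : fQ h w ((a, x), (y, c)) = phi a c (Tr (x * y)) (Tr (h ^ 2 * (x * y)))
      (Tr (h ^ 4 * (x * y))) (Tr (w * h ^ 2 * (x * y))) (Tr (h ^ 2 / (1 + h ^ 2) * (x * y))) := by
    simp only [fQ, one_mul, mul_assoc]
  by_cases hx : x = 0
  · subst hx
    rw [hf]
    simp only [zero_mul, mul_zero, Tr_zero]
    have hphi : ∀ a c : ZMod 2, phi a c 0 0 0 0 0 = 1 ↔ a = 0 ∨ c = 0 := by unfold phi; decide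
    rw [hphi]
    constructor
    · rintro (rfl | rfl)
      · rcases zmod2_cases c with rfl | rfl
        · exact ⟨none, (0, y), by rw [psiQ_none]⟩
        · refine ⟨some y, (1, 0), ?_⟩
          rw [psiQ_some]; simp [Tr_zero]
      · exact ⟨none, (a, y), by rw [psiQ_none]⟩
    · rintro ⟨(_ | s), ⟨b, z⟩, H⟩
      · rw [psiQ_none] at H
        simp only [Prod.mk.injEq] at H
        exact Or.inr H.2.2.symm
      · rw [psiQ_some] at H
        simp only [Prod.mk.injEq] at H
        obtain ⟨⟨e1, e2⟩, e3, e4⟩ := H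
        subst e2
        left
        rw [← e1]; simp [Tr_zero]
  · rw [hf, ← core hh h1 hw a c (x * y)]
    constructor
    · rintro ⟨S, hS1, hS2⟩
      refine ⟨some (S / x), (c, x), ?_⟩
      have e1 : S / x * x = S := by field_simp
      rw [psiQ_some, e1, hS1]
      have e2 : (S / x) ^ 2 * x + (c + Tr (h * S)) • (S / x) + a • (h⁻¹ * (S / x)) = y := by
        have e3 : y = (x * y) / x := by field_simp
        rw [e3, ← hS2]
        simp only [Algebra.smul_def]
        field_simp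
      rw [e2]
    · rintro ⟨(_ | s), ⟨b, z⟩, H⟩
      · rw [psiQ_none] at H
        simp only [Prod.mk.injEq] at H
        exact absurd H.1.2.symm hx
      · rw [psiQ_some] at H
        simp only [Prod.mk.injEq] at H
        obtain ⟨⟨e1, e2⟩, e3, e4⟩ := H
        subst e2 e4
        refine ⟨s * z, e1, ?_⟩
        rw [← e3, e1]
        simp only [Algebra.smul_def]
        ring

theorem fQ_deg5 (w : F) : degLE 5 (fQ h w) := by
  have c1 : ∀ d, degLE d (fun _ : VV F => (1 : ZMod 2)) := fun d => degLE_const 1 d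
  have A := deg_a (F := F)
  have C := deg_c (F := F)
  have L0 := deg_Trxy (F := F) 1
  have L1 := deg_Trxy (F := F) (h ^ 2)
  have L2 := deg_Trxy (F := F) (h ^ 4)
  have L3 := deg_Trxy (F := F) (w * h ^ 2)
  have L4 := deg_Trxy (F := F) (h ^ 2 / (1 + h ^ 2))
  have L02 := degLE_add 2 L0 L2
  have L34 := degLE_add 2 L3 L4
  have p1 := degLE_mul (a := 1) (b := 2) C L02
  have p2 := degLE_mul (a := 2) (b := 2) L1 L02
  have p3 := degLE_mul (a := 1) (b := 2) C (degLE_add 2 (c1 2) L1)
  have p4 := degLE_mul (a := 2) (b := 2) L1 L34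
  have q1 := degLE_add 4 (degLE_add 4 (degLE_add 4 (c1 4) (degLE_mono (by norm_num) p1))
    (degLE_mono (by norm_num) L2)) p2
  have q2 := degLE_add 4 (degLE_add 4 (degLE_add 4 (degLE_mono (by norm_num) p3) (c1 4))
    (degLE_mono (by norm_num) L3)) p4
  exact degLE_add 5 (degLE_mul (a := 1) (b := 4) (degLE_add 1 (c1 1) A) q1)
    (degLE_mul (a := 1) (b := 4) A q2)

/-- a point where one trace functional is one and three others vanish -/
theorem exists_sep (u : F) (L : Fin 3 → F)
    (hu : ∀ c : Fin 3 → ZMod 2, u ≠ ∑ i, c i • L i) :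
    ∃ y, Tr (u * y) = 1 ∧ ∀ i, Tr (L i * y) = 0 := by
  have : Module.Finite (ZMod 2) F := Module.Finite.of_finite
  let φ : F → (F →ₗ[ZMod 2] ZMod 2) := fun z =>
    (Algebra.trace (ZMod 2) F).comp (LinearMap.mulLeft (ZMod 2) z)
  have hφ : ∀ z y, φ z y = Tr (z * y) := fun z y => rfl
  by_contra hcon
  push Not at hcon
  have hle : ⨅ i, LinearMap.ker (φ (L i)) ≤ LinearMap.ker (φ u) := by
    intro y hy
    rw [Submodule.mem_iInf] at hy
    rw [LinearMap.mem_ker, hφ]
    rcases zmod2_cases (Tr (u * y)) with h0 | h0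
    · exact h0
    · obtain ⟨i, hi⟩ := hcon y h0
      exact absurd (hy i) hi
  have hmem := mem_span_of_iInf_ker_le_ker hle
  rw [Submodule.mem_span_range_iff_exists_fun] at hmem
  obtain ⟨c, hc⟩ := hmem
  apply hu c
  have h3 : u - ∑ i, c i • L i = 0 := by
    apply eq_zero_of_Tr
    intro y
    have := congrArg (fun ψ : F →ₗ[ZMod 2] ZMod 2 => ψ y) hc
    simp only [LinearMap.sum_apply, LinearMap.smul_apply, hφ, smul_eq_mul] at this
    rw [sub_mul, Finset.sum_mul]
    have e : ∀ a b : F, Tr (a - b) = Tr a - Tr b := fun a b => map_sub (Algebra.trace (ZMod 2) F) a b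
    have e2 : Tr (∑ i, c i • L i * y) = ∑ i, Tr (c i • L i * y) :=
      map_sum (Algebra.trace (ZMod 2) F) _ _
    rw [e, e2, ← this]
    simp only [smul_mul_assoc, Tr_smul]
    ring
  linear_combination h3

theorem exists_t (hF : 16 ≤ Nat.card F) (l u : F) :
    ∃ t : F, t ≠ 0 ∧ t ≠ 1 ∧ t ≠ l / u ∧ t ≠ (l + u) / l ∧ t ≠ l / (l + u) ∧ t ≠ (l + u) / u := by
  classical
  have := Fintype.ofFinite F
  rw [Nat.card_eq_fintype_card] at hF
  let T : Finset F := {0, 1, l / u, (l + u) / l, l / (l + u), (l + u) / u}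
  have hT : T.card ≤ 6 := Finset.card_le_six
  obtain ⟨t, ht⟩ : ∃ t, t ∉ T := by
    by_contra hcon
    push Not at hcon
    have : T = Finset.univ := Finset.eq_univ_iff_forall.2 hcon
    rw [this, Finset.card_univ] at hT
    omega
  refine ⟨t, ?_⟩
  simpa [T, not_or] using ht

theorem prod_not_deg3 (hF : 16 ≤ Nat.card F) (l u : F) (hl : l ≠ 0) (hu : u ≠ 0) (hlu : l ≠ u)
    (H : degLE 3 (fun v : F × F => Tr (l * (v.1 * v.2)) * Tr (u * (v.1 * v.2)))) : False := by
  obtain ⟨t, t0, t1, t2, t3, t4, t5⟩ := exists_t hF l u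
  have h2 := two_eq_zero' (F := F)
  have hlu' : l + u ≠ 0 := by
    intro h0; apply hlu
    have := F_add_self u
    linear_combination h0 - this
  obtain ⟨y1, hy1, hy2⟩ := exists_sep l ![l * t, u, u * t] (by
    intro c hc
    rw [Fin.sum_univ_three] at hc
    simp only [Matrix.cons_val_zero, Matrix.cons_val_one, Matrix.cons_val_two, Matrix.head_cons,
      Matrix.tail_cons, Matrix.cons_val] at hc
    rcases zmod2_cases (c 0) with e0 | e0 <;> rcases zmod2_cases (c 1) with e1 | e1 <;>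
      rcases zmod2_cases (c 2) with e2 | e2 <;> rw [e0, e1, e2] at hc <;>
      simp only [zero_smul, one_smul, zero_add, add_zero] at hc
    · exact hl hc
    · exact t2 (by rw [hc]; field_simp)
    · exact hlu hc
    · apply t5
      rw [eq_div_iff hu]; linear_combination -hc - u * h2
    · apply t1
      have : l * (1 - t) = 0 := by linear_combination hc
      rcases mul_eq_zero.1 this with h | h
      · exact absurd h hl
      · linear_combination -h
    · apply t4
      rw [eq_div_iff hlu']; linear_combination -hc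
    · apply t3
      rw [eq_div_iff hl]; linear_combination -hc - u * h2
    · apply t1
      have : (l + u) * (1 - t) = 0 := by linear_combination hc + u * h2
      rcases mul_eq_zero.1 this with h | h
      · exact absurd h hlu'
      · linear_combination -h)
  have a1 := hy2 0
  have a2 := hy2 1
  have a3 := hy2 2
  simp only [Matrix.cons_val_zero, Matrix.cons_val_one, Matrix.cons_val_two, Matrix.head_cons,
      Matrix.tail_cons, Matrix.cons_val] at a1 a2 a3
  obtain ⟨y2, hy3⟩ := exists_Tr_mul_one (mul_ne_zero hu t0)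
  have h4 := H (1, 0) (t, 0) (0, y1) (0, y2) 0
  simp only [der, Prod.fst_add, Prod.snd_add, Prod.mk_add_mk, Prod.fst_zero, Prod.snd_zero,
      zero_add, add_zero, mul_zero, zero_mul, Tr_zero, mul_one, one_mul, sub_self, mul_add, add_mul,
      Tr_add, sub_zero] at h4
  have b1 : Tr (l * (t * y1)) = 0 := by rw [← mul_assoc]; exact a1
  have b3 : Tr (u * (t * y1)) = 0 := by rw [← mul_assoc]; exact a3
  have b4 : Tr (u * (t * y2)) = 1 := by rw [← mul_assoc]; exact hy3
  rw [hy1, a2, b1, b3, b4] at h4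
  revert h4
  generalize Tr (l * y2) = p
  generalize Tr (u * y2) = q
  generalize Tr (l * (t * y2)) = r
  revert p q r
  decide

theorem fQ_not_deg4 (hF : 16 ≤ Nat.card F) (hh : Tr h = 1) (h1 : Tr (1 : F) = 0) {w : F}
    (hw : w ^ 2 + w = 1) (hw2 : h ^ 2 + h + 1 ≠ 0) : ¬ degLE 4 (fQ h w) := by
  intro H
  have h0 := h_ne_zero hh
  have h2 := two_eq_zero' (F := F)
  have hk0 := one_add_h_ne hh h1
  have hk1 : 1 + h ^ 2 ≠ 0 := by
    have : 1 + h ^ 2 = (1 + h) ^ 2 := by rw [sq_add]; ring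
    rw [this]; exact pow_ne_zero 2 hk0
  have hB : (h ^ 2) ^ 2 + h ^ 2 + 1 ≠ 0 := by
    have e : (h ^ 2) ^ 2 + h ^ 2 + 1 = (h ^ 2 + h + 1) ^ 2 := by rw [sq_add, sq_add]; ring
    rw [e]; exact pow_ne_zero 2 hw2
  have H1 := H ((1, 0), (0, 0))
  let j : F × F →+ VV F := AddMonoidHom.mk' (fun p => ((0, p.1), (p.2, 0)))
      (by intro p q; ext <;> simp)
  have H2 := degLE_comp 3 j H1
  set u : F := 1 + h ^ 4 + w * h ^ 2 + h ^ 2 / (1 + h ^ 2) with hu
  have L1 : degLE 1 (fun v : F × F => v.1) := degLE_addHom (AddMonoidHom.fst F F)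
  have L2 : degLE 1 (fun v : F × F => v.2) := degLE_addHom (AddMonoidHom.snd F F)
  have L3 : ∀ l : F, degLE 2 (fun v : F × F => Tr (l * (v.1 * v.2))) := by
    intro l
    have h1 := degLE_mul (a := 1) (b := 1) L1 L2
    exact degLE_map 2 (TrHom (F := F)) (degLE_map 2 (AddMonoidHom.mulLeft l) h1)
  have H3 := degLE_sub 3 H2 (degLE_mono (by norm_num) (L3 (w * h ^ 2 + h ^ 4)))
  have hq : (h ^ 2 / (1 + h ^ 2)) * (1 + h ^ 2) = h ^ 2 := div_mul_cancel₀ _ hk1
  have e1 : (1 + h ^ 2) * u = (h ^ 2 + w ^ 2) ^ 3 := by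
    rw [hu]
    linear_combination hq + (-(w ^ 4 - w ^ 3 + 2 * w ^ 2 - 3 * w + 5) - 3 * h ^ 2 * (w ^ 2 - w + 2)
      - 3 * h ^ 4) * hw + ((4 * w - 2) + h ^ 2 * (5 * w - 2) + h ^ 4 * (2 * w - 1)) * h2
  have e2 : (1 + h ^ 2) * (h ^ 2 + u) = (h ^ 2 + w) ^ 3 := by
    rw [hu]
    linear_combination hq + (-(w - 1) - 3 * h ^ 2) * hw
      + ((1 - w) + h ^ 2 * (2 * w) + h ^ 4 * (1 - w)) * h2
  refine prod_not_deg3 hF (h ^ 2) u (pow_ne_zero 2 h0) ?_ ?_ ?_
  · intro hu0
    rw [hu0, mul_zero] at e1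
    have e3 : h ^ 2 + w ^ 2 = 0 := (pow_eq_zero_iff (by norm_num)).1 e1.symm
    apply hB
    linear_combination (h ^ 2 - w ^ 2 + 1) * e3 + (w ^ 2 - w + 1) * hw + (1 - w) * h2
  · intro hu0
    rw [← hu0, F_add_self, mul_zero] at e2
    have e3 : h ^ 2 + w = 0 := (pow_eq_zero_iff (by norm_num)).1 e2.symm
    apply hB
    linear_combination (h ^ 2 - w + 1) * e3 + hw + (1 - w) * h2
  · apply degLE_of_eq _ H3
    intro v
    simp only [der, fQ, phi, j, AddMonoidHom.mk'_apply, Prod.mk_add_mk, add_zero, zero_add, hu,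
      add_mul, Tr_add, one_mul, mul_assoc]
    generalize Tr (v.1 * v.2) = z0
    generalize Tr (h ^ 2 * (v.1 * v.2)) = z1
    generalize Tr (h ^ 4 * (v.1 * v.2)) = z2
    generalize Tr (w * (h ^ 2 * (v.1 * v.2))) = z3
    generalize Tr (h ^ 2 / (1 + h ^ 2) * (v.1 * v.2)) = z4
    revert z0 z1 z2 z3 z4
    decide

theorem five_mem_aux (he : Even (finrank (ZMod 2) F)) (h4 : 4 ≤ finrank (ZMod 2) F) :
    5 ∈ D (finrank (ZMod 2) F + 1) := by
  have : Module.Finite (ZMod 2) F := Module.Finite.of_finite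
  have := Fintype.ofFinite F
  have h2 := two_eq_zero' (F := F)
  have h1 : Tr (1 : F) = 0 := by
    rw [Tr_one]
    obtain ⟨k, hk⟩ := he
    rw [hk]; push_cast
    exact zmod2_add_self _
  obtain ⟨w, hw⟩ : ∃ w : F, w ^ 2 + w = 1 := artin_schreier 1 h1
  have hF : 16 ≤ Nat.card F := by
    have h5 := Module.card_eq_pow_finrank (K := ZMod 2) (V := F)
    rw [ZMod.card] at h5
    rw [Nat.card_eq_fintype_card, h5]
    calc 16 = 2 ^ 4 := by norm_num
      _ ≤ 2 ^ finrank (ZMod 2) F := Nat.pow_le_pow_right (by norm_num) h4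
  obtain ⟨g, hg, hg1⟩ : ∃ g : F, Tr g = 1 ∧ g ^ 2 + g + 1 ≠ 0 := by
    obtain ⟨z, hz⟩ := exists_Tr_one (F := F)
    by_cases hz1 : z ^ 2 + z + 1 = 0
    · have hr := LinearMap.finrank_range_add_finrank_ker (Algebra.trace (ZMod 2) F)
      rw [LinearMap.range_eq_top.2 (Algebra.trace_surjective (ZMod 2) F), finrank_top,
        finrank_self] at hr
      have hnle : ¬ LinearMap.ker (Algebra.trace (ZMod 2) F) ≤ Submodule.span (ZMod 2) {(1 : F)} := by
        intro hle
        have h6 := Submodule.finrank_mono hle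
        rw [finrank_span_singleton one_ne_zero] at h6
        omega
      obtain ⟨k, hk, hk1⟩ := SetLike.not_le_iff_exists.1 hnle
      refine ⟨z + k, ?_, ?_⟩
      · rw [Tr_add, hz]
        have : Tr k = 0 := hk
        rw [this, add_zero]
      · intro h7
        apply hk1
        rw [Submodule.mem_span_singleton]
        have h8 : k * (k + 1) = 0 := by linear_combination h7 - hz1 - z * k * h2
        rcases mul_eq_zero.1 h8 with h9 | h9
        · exact ⟨0, by simp [h9]⟩
        · refine ⟨1, ?_⟩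
          rw [one_smul]
          have := F_add_self (1 : F)
          linear_combination this - h9
    · exact ⟨z, hz, hz1⟩
  exact mem_D_fam (psiQ g) (psiQ_inj g) (psiQ_dis hg h1) (fQ g w) (fQ_iff hg h1 hw) (fQ_deg5 w)
    (by norm_num) (fQ_not_deg4 hF hg h1 hw hg1)

end quint

theorem five_mem (m : ℕ) (hm : 5 ≤ m) (ho : Odd m) : 5 ∈ D m := by
  have hk := GaloisField.finrank 2 (n := m - 1) (by omega)
  have h := five_mem_aux (F := GaloisField 2 (m - 1)) (by
    rw [hk]; obtain ⟨k, rfl⟩ := ho; exact ⟨k, by omega⟩) (by rw [hk]; omega)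
  rw [hk] at h
  rwa [Nat.sub_add_cancel (by omega)] at h

end Pool.Agent.helper65.PS
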