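import Mathlib
import Pool.Agent.helper65.PS.Trans

/-! Restrictions on the degrees of `PS+` functions. -/

namespace Pool.Agent.helper65.PS

open Finset Module

/-- the indicator function of a subspace of codimension `m` has degree at most `m` -/
theorem degLE_indicator {m : ℕ} {V : Type*} [AddCommGroup V] [Module (ZMod 2) V]
    [Module.Finite (ZMod 2) V] (E : Submodule (ZMod 2) V)
    (hE : finrank (ZMod 2) (V ⧸ E) = m) (g : V → ZMod 2) (hg : ∀ v, g v = 1 ↔ v ∈ E) :
    degLE m g := by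
  classical
  let e : (V ⧸ E) ≃ₗ[ZMod 2] (Fin m → ZMod 2) := LinearEquiv.ofFinrankEq _ _ (by simp [hE])
  let φ : V →+ (Fin m → ZMod 2) := (e.toLinearMap.comp E.mkQ).toAddMonoidHom
  have hφ : ∀ v, φ v = 0 ↔ v ∈ E := by
    intro v
    show e (E.mkQ v) = 0 ↔ v ∈ E
    rw [LinearEquiv.map_eq_zero_iff, ← LinearMap.mem_ker, Submodule.ker_mkQ]
  have h1 : ∀ i : Fin m, degLE 1 (fun v => 1 + φ v i) := fun i =>
    degLE_add 1 (degLE_const (1 : ZMod 2) 1)
      (degLE_addHom ((Pi.evalAddMonoidHom (fun _ : Fin m => ZMod 2) i).comp φ))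
  have h2 := degLE_prod Finset.univ (fun (i : Fin m) (v : V) => 1 + φ v i) (fun i _ => h1 i)
  rw [Finset.card_univ, Fintype.card_fin] at h2
  apply degLE_of_eq _ h2
  intro v
  by_cases hv : v ∈ E
  · rw [(hg v).2 hv, Finset.prod_eq_one]
    intro i _
    rw [(hφ v).2 hv]; simp
  · have h3 : g v = 0 := by
      rcases zmod2_cases (g v) with h0 | h0
      · exact h0
      · exact absurd ((hg v).1 h0) hv
    rw [h3]
    have h4 : φ v ≠ 0 := fun h => hv ((hφ v).1 h)
    obtain ⟨i, hi⟩ : ∃ i, φ v i ≠ 0 := by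
      by_contra hcon
      push Not at hcon
      exact h4 (funext hcon)
    apply Finset.prod_eq_zero (Finset.mem_univ i)
    rcases zmod2_cases (φ v i) with h0 | h0
    · exact absurd h0 hi
    · rw [h0]; exact zmod2_add_self 1

/-- the union of a family of pairwise disjoint subspaces of codimension `m`, of odd size -/
theorem degLE_union {m : ℕ} {V : Type*} [AddCommGroup V] [Module (ZMod 2) V]
    [Module.Finite (ZMod 2) V] {ι : Type*} [Fintype ι] (E : ι → Submodule (ZMod 2) V)
    (hE : ∀ i, finrank (ZMod 2) (V ⧸ E i) = m)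
    (hdis : ∀ i j, i ≠ j → ∀ v, v ∈ E i → v ∈ E j → v = 0) (hodd : Odd (Fintype.card ι))
    (f : V → ZMod 2) (hf : ∀ v, f v = 1 ↔ ∃ i, v ∈ E i) : degLE m f := by
  classical
  have h1 : ∀ i : ι, degLE m (fun v => if v ∈ E i then (1 : ZMod 2) else 0) := fun i =>
    degLE_indicator (E i) (hE i) _ (by intro v; by_cases h : v ∈ E i <;> simp [h])
  have h2 := degLE_sum Finset.univ m (fun (i : ι) (v : V) => if v ∈ E i then (1 : ZMod 2) else 0)
    (fun i _ => h1 i)
  apply degLE_of_eq _ h2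
  intro v
  by_cases hv : ∃ i, v ∈ E i
  · rw [(hf v).2 hv]
    by_cases hv0 : v = 0
    · subst hv0
      have : ∀ i : ι, (if (0 : V) ∈ E i then (1 : ZMod 2) else 0) = 1 := by
        intro i; rw [if_pos (Submodule.zero_mem _)]
      rw [Finset.sum_congr rfl (fun i _ => this i), Finset.sum_const, Finset.card_univ,
        nsmul_eq_mul, mul_one]
      obtain ⟨k, hk⟩ := hodd
      rw [hk]; push_cast
      have h2 : (2 : ZMod 2) = 0 := by decide
      rw [h2, zero_mul, zero_add]
    · obtain ⟨i, hi⟩ := hv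
      rw [Finset.sum_eq_single i]
      · rw [if_pos hi]
      · intro j _ hj
        rw [if_neg]
        intro h
        exact hv0 (hdis j i hj v h hi)
      · intro h; exact absurd (Finset.mem_univ _) h
  · have h3 : f v = 0 := by
      rcases zmod2_cases (f v) with h0 | h0
      · exact h0
      · exact absurd ((hf v).1 h0) hv
    rw [h3]
    apply Finset.sum_eq_zero
    intro i _
    rw [if_neg]
    intro h; exact hv ⟨i, h⟩

/-- the determinant of an alternate matrix of odd size over `F_2` vanishes -/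
theorem det_alt {m : ℕ} (hm : Odd m) (A : Matrix (Fin m) (Fin m) (ZMod 2))
    (h1 : ∀ i, A i i = 0) (h2 : ∀ i j, A i j = A j i) : A.det = 0 := by
  classical
  rw [Matrix.det_apply]
  have hs : ∀ (σ : Equiv.Perm (Fin m)) (z : ZMod 2), Equiv.Perm.sign σ • z = z := by
    intro σ z
    rcases Int.units_eq_one_or (Equiv.Perm.sign σ) with h | h
    · rw [h, one_smul]
    · rw [h]
      show (-1 : ℤˣ) • z = z
      rw [Units.smul_def]
      simp only [Units.val_neg, Units.val_one, neg_smul, one_smul]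
      revert z; decide
  refine Finset.sum_involution (fun σ _ => σ⁻¹) ?_ ?_ (fun _ _ => Finset.mem_univ _) ?_
  · intro σ _
    rw [hs, hs]
    have : ∏ i, A (σ⁻¹ i) i = ∏ i, A (σ i) i := by
      rw [← Equiv.prod_comp σ]
      apply Finset.prod_congr rfl
      intro i _
      have h3 : σ⁻¹ (σ i) = i := σ.symm_apply_apply i
      rw [h3, h2]
    rw [this]
    exact zmod2_add_self _
  · intro σ _ hne heq
    apply hne
    rw [hs]
    have h3 : σ ^ 2 ^ 1 = 1 := by
      rw [pow_one, pow_two]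
      nth_rewrite 1 [← heq]
      rw [inv_mul_cancel]
    have h4 : ¬ 2 ∣ Fintype.card (Fin m) := by
      rw [Fintype.card_fin]
      obtain ⟨k, hk⟩ := hm
      omega
    obtain ⟨a, ha⟩ := Equiv.Perm.exists_fixed_point_of_prime (p := 2) (n := 1) h4 h3
    apply Finset.prod_eq_zero (Finset.mem_univ a)
    rw [ha, h1]
  · intro σ _
    exact inv_inv σ

section data

variable {m : ℕ} {f : Cube (2 * m) → ZMod 2} {E : Fin (2 ^ (m - 1) + 1) → Submodule (ZMod 2) (Cube (2 * m))}

theorem psplus_iff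
    (hf : ∀ x, ((f x).val : ℤ) =
      (∑ i, open Classical in if x ∈ E i then 1 else 0) - 2 ^ (m - 1) * (open Classical in if x = 0 then 1 else 0)) :
    ∀ v, f v = 1 ↔ ∃ i, v ∈ E i := by
  classical
  intro v
  have h := hf v
  by_cases hv : v = 0
  · subst hv
    have hz : ∀ i : Fin (2 ^ (m - 1) + 1), (0 : Cube (2 * m)) ∈ E i :=
        fun i => Submodule.zero_mem _
    simp only [hz, if_true, Finset.sum_const, Finset.card_univ, Fintype.card_fin] at h
    simp only [nsmul_eq_mul, mul_one, Nat.cast_add, Nat.cast_pow, Nat.cast_ofNat, Nat.cast_one,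
      add_sub_cancel_left] at h
    constructor
    · intro _; exact ⟨0, hz 0⟩
    · intro _
      rcases zmod2_cases (f 0) with h0 | h0
      · rw [h0] at h
        exfalso
        revert h; decide
      · exact h0
  · rw [if_neg hv, mul_zero, sub_zero] at h
    constructor
    · intro h1
      by_contra hcon
      push Not at hcon
      rw [h1, Finset.sum_eq_zero (fun i _ => if_neg (hcon i))] at h
      revert h; decide
    · rintro ⟨i, hi⟩
      rcases zmod2_cases (f v) with h0 | h0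
      · exfalso
        rw [h0] at h
        have h2 : (1 : ℤ) ≤ ∑ i, if v ∈ E i then 1 else 0 := by
          calc (1 : ℤ) = if v ∈ E i then 1 else 0 := by rw [if_pos hi]
            _ ≤ ∑ i, if v ∈ E i then 1 else 0 :=
              Finset.single_le_sum (f := fun i => if v ∈ E i then (1 : ℤ) else 0)
                (fun j _ => by split_ifs <;> norm_num) (Finset.mem_univ i)
        rw [← h] at h2
        revert h2; decide
      · exact h0

theorem sup_top (hE : ∀ i, finrank (ZMod 2) (E i) = m)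
    (hdis : ∀ i j, i ≠ j → E i ⊓ E j = ⊥) {i j : Fin (2 ^ (m - 1) + 1)} (hij : i ≠ j) :
    E i ⊔ E j = ⊤ := by
  apply Submodule.eq_top_of_finrank_eq
  have h := Submodule.finrank_sup_add_finrank_inf_eq (E i) (E j)
  rw [hdis i j hij, finrank_bot, hE, hE] at h
  rw [finrank_fin_fun]
  omega

theorem no_period (hm : 2 ≤ m) (hE : ∀ i, finrank (ZMod 2) (E i) = m)
    (hdis : ∀ i j, i ≠ j → E i ⊓ E j = ⊥) (hf : ∀ v, f v = 1 ↔ ∃ i, v ∈ E i)
    {r : Cube (2 * m)} (hr0 : r ≠ 0) {i0 : Fin (2 ^ (m - 1) + 1)} (hr : r ∈ E i0)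
    (hper : ∀ x, f (x + r) = f x) : False := by
  classical
  have hpow : 2 ^ m = 2 * 2 ^ (m - 1) := by
    rw [← pow_succ']; congr 1; omega
  have hpos : 2 ≤ 2 ^ (m - 1) := by
    calc 2 = 2 ^ 1 := by norm_num
      _ ≤ 2 ^ (m - 1) := Nat.pow_le_pow_right (by norm_num) (by omega)
  obtain ⟨i1, hi1⟩ : ∃ i1, i1 ≠ i0 := by
    have : Nontrivial (Fin (2 ^ (m - 1) + 1)) := Fin.nontrivial_iff_two_le.2 (by omega)
    exact exists_ne i0
  have hmem : ∀ {i j}, i ≠ j → ∀ {v}, v ∈ E i → v ∈ E j → v = 0 := by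
    intro i j hij v h1 h2
    have : v ∈ E i ⊓ E j := ⟨h1, h2⟩
    rw [hdis i j hij] at this
    simpa using this
  have hex : ∀ x : E i1, ∃ j, (x : Cube (2 * m)) + r ∈ E j := by
    intro x
    rw [← hf, hper, hf]
    exact ⟨i1, x.2⟩
  choose j hj using hex
  have hinj : Function.Injective j := by
    intro x y hxy
    have hx := hj x
    have hy := hj y
    rw [← hxy] at hy
    by_cases h1 : j x = i1
    · exfalso
      rw [h1] at hx
      have h2 : r ∈ E i1 := by
        have := (E i1).sub_mem hx x.2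
        simpa using this
      exact hr0 (hmem hi1 h2 hr)
    · have h2 : (x : Cube (2 * m)) - y ∈ E (j x) := by
        have := (E (j x)).sub_mem hx hy
        simpa using this
      have h3 := hmem h1 h2 ((E i1).sub_mem x.2 y.2)
      exact Subtype.ext (sub_eq_zero.1 h3)
  have hcard := Nat.card_le_card_of_injective j hinj
  have h5 : Nat.card (E i1) = 2 ^ m := by
    have := Fintype.ofFinite (E i1)
    have h5 := Module.card_eq_pow_finrank (K := ZMod 2) (V := E i1)
    rw [ZMod.card, hE] at h5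
    rw [Nat.card_eq_fintype_card, h5]
  rw [h5, Nat.card_eq_fintype_card, Fintype.card_fin] at hcard
  omega

theorem exists_mem_ne (hm : 2 ≤ m) (hE : ∀ i, finrank (ZMod 2) (E i) = m)
    (i : Fin (2 ^ (m - 1) + 1)) : ∃ r ∈ E i, r ≠ 0 := by
  have : E i ≠ ⊥ := by
    intro h
    have := hE i
    rw [h, finrank_bot] at this
    omega
  exact (Submodule.ne_bot_iff _).1 this

theorem not_deg1 (hm : 2 ≤ m) (hE : ∀ i, finrank (ZMod 2) (E i) = m)
    (hdis : ∀ i j, i ≠ j → E i ⊓ E j = ⊥) (hf : ∀ v, f v = 1 ↔ ∃ i, v ∈ E i) :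
    ¬ degLE 1 f := by
  intro H
  obtain ⟨r, hr, hr0⟩ := exists_mem_ne hm hE 0
  apply no_period hm hE hdis hf hr0 hr
  intro x
  have h1 := H r x 0
  simp only [der, zero_add] at h1
  have h2 : f r = 1 := (hf r).2 ⟨0, hr⟩
  have h3 : f 0 = 1 := (hf 0).2 ⟨0, Submodule.zero_mem _⟩
  rw [h2, h3, sub_self] at h1
  exact sub_eq_zero.1 h1

theorem not_deg2 (hm : 2 ≤ m) (hodd : Odd m) (hE : ∀ i, finrank (ZMod 2) (E i) = m)
    (hdis : ∀ i j, i ≠ j → E i ⊓ E j = ⊥) (hf : ∀ v, f v = 1 ↔ ∃ i, v ∈ E i) :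
    ¬ degLE 2 f := by
  classical
  intro H
  have hpos : 2 ≤ 2 ^ (m - 1) := by
    calc 2 = 2 ^ 1 := by norm_num
      _ ≤ 2 ^ (m - 1) := Nat.pow_le_pow_right (by norm_num) (by omega)
  have hmem : ∀ {i j}, i ≠ j → ∀ {v}, v ∈ E i → v ∈ E j → v = 0 := by
    intro i j hij v h1 h2
    have : v ∈ E i ⊓ E j := ⟨h1, h2⟩
    rw [hdis i j hij] at this
    simpa using this
  -- three members
  obtain ⟨i1, i2, i3, h12, h13, h23⟩ : ∃ i1 i2 i3 : Fin (2 ^ (m - 1) + 1),
      i1 ≠ i2 ∧ i1 ≠ i3 ∧ i2 ≠ i3 := by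
    refine ⟨⟨0, by omega⟩, ⟨1, by omega⟩, ⟨2, by omega⟩, ?_, ?_, ?_⟩ <;>
    · intro h
      have := congrArg Fin.val h
      simp at this
  have f0 : f 0 = 1 := (hf 0).2 ⟨i1, Submodule.zero_mem _⟩
  have fE : ∀ i, ∀ v ∈ E i, f v = 1 := fun i v hv => (hf v).2 ⟨i, hv⟩
  let B : Cube (2 * m) → Cube (2 * m) → ZMod 2 := fun x y => f (x + y) - f x - f y + f 0
  have hB : ∀ x y, B x y = f (x + y) - f x - f y + f 0 := fun x y => rfl
  have Badd : ∀ x y z, B x (y + z) = B x y + B x z := by
    intro x y z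
    have h1 := H x z y 0
    simp only [der, zero_add] at h1
    rw [hB, hB, hB]
    have e1 : x + (y + z) = y + z + x := by abel
    rw [e1, add_comm x y, add_comm x z]
    linear_combination h1
  have Bsymm : ∀ x y, B x y = B y x := by
    intro x y; rw [hB, hB, add_comm x y]; ring
  have BE : ∀ i, ∀ v ∈ E i, ∀ w ∈ E i, B v w = 0 := by
    intro i v hv w hw
    rw [hB, fE i _ ((E i).add_mem hv hw), fE i v hv, fE i w hw, f0]; decide
  let Bh : Cube (2 * m) → (Cube (2 * m) →+ ZMod 2) := fun x => AddMonoidHom.mk' (B x) (Badd x)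
  have hBh : ∀ x y, Bh x y = B x y := fun x y => rfl
  have Bsum : ∀ (x : Cube (2 * m)) (z : Fin m → ZMod 2) (c : Fin m → Cube (2 * m)),
      B x (∑ j, z j • c j) = ∑ j, z j * B x (c j) := by
    intro x z c
    rw [← hBh, map_sum]
    apply Finset.sum_congr rfl
    intro j _
    rcases zmod2_cases (z j) with h | h
    · rw [h]; simp
    · rw [h, one_smul, one_mul, hBh]
  let b : Basis (Fin m) (ZMod 2) (E i1) := finBasisOfFinrankEq (ZMod 2) (E i1) (hE i1)
  have hc : ∀ j, ∃ c ∈ E i2, (b j : Cube (2 * m)) + c ∈ E i3 := by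
    intro j
    have h1 : (b j : Cube (2 * m)) ∈ E i2 ⊔ E i3 := by
      rw [sup_top hE hdis h23]; trivial
    obtain ⟨u, hu, w, hw, huw⟩ := Submodule.mem_sup.1 h1
    refine ⟨-u, (E i2).neg_mem hu, ?_⟩
    have : (b j : Cube (2 * m)) + -u = w := by rw [← huw]; abel
    rw [this]; exact hw
  choose c hc2 hc3 using hc
  let A : Matrix (Fin m) (Fin m) (ZMod 2) := fun i j => B (b i) (c j)
  have hA1 : ∀ i, A i i = 0 := by
    intro i
    show B (b i) (c i) = 0
    rw [hB, fE i3 _ (hc3 i), fE i1 _ (b i).2, fE i2 _ (hc2 i), f0]; decide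
  have hA2 : ∀ i j, A i j = A j i := by
    intro i j
    show B (b i) (c j) = B (b j) (c i)
    have h1 := BE i3 _ (hc3 i) _ (hc3 j)
    rw [Badd, Bsymm _ (b j : Cube (2 * m)), Bsymm _ (c j), Badd, Badd,
      BE i1 _ (b j).2 _ (b i).2, BE i2 _ (hc2 j) _ (hc2 i), zero_add, add_zero,
      Bsymm (c j) (b i)] at h1
    revert h1
    generalize B (b i) (c j) = p
    generalize B (b j) (c i) = q
    revert p q; decide
  have hdet := det_alt hodd A hA1 hA2
  obtain ⟨z, hz0, hz⟩ := Matrix.exists_mulVec_eq_zero_iff.2 hdet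
  let r : Cube (2 * m) := ∑ j, z j • c j
  have hr2 : r ∈ E i2 := Submodule.sum_mem _ (fun j _ => Submodule.smul_mem _ _ (hc2 j))
  have hr0 : r ≠ 0 := by
    intro h0
    apply hz0
    have h1 : ∑ j, z j • (b j : Cube (2 * m)) ∈ E i3 := by
      have h2 : ∑ j, z j • ((b j : Cube (2 * m)) + c j) ∈ E i3 :=
        Submodule.sum_mem _ (fun j _ => Submodule.smul_mem _ _ (hc3 j))
      have h3 : ∑ j, z j • ((b j : Cube (2 * m)) + c j) = ∑ j, z j • (b j : Cube (2 * m)) + r := by
        simp only [smul_add, Finset.sum_add_distrib]; rfl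
      rw [h3, h0, add_zero] at h2
      exact h2
    have h4 : ∑ j, z j • (b j : Cube (2 * m)) ∈ E i1 :=
      Submodule.sum_mem _ (fun j _ => Submodule.smul_mem _ _ (b j).2)
    have h5 := hmem h13 h4 h1
    have h6 : ∑ j, z j • b j = 0 := by
      apply Subtype.ext
      rw [AddSubmonoidClass.coe_finsetSum]
      simpa using h5
    have h7 := Fintype.linearIndependent_iff.1 b.linearIndependent z h6
    funext j; exact h7 j
  have hBr1 : ∀ i, B r (b i) = 0 := by
    intro i
    rw [Bsymm, Bsum]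
    have := congrFun hz i
    simp only [Matrix.mulVec, dotProduct, Pi.zero_apply] at this
    rw [← this]
    apply Finset.sum_congr rfl
    intro j _
    show z j * B (b i) (c j) = B (b i) (c j) * z j
    ring
  have hBr : ∀ x, B r x = 0 := by
    intro x
    have h1 : x ∈ E i1 ⊔ E i2 := by rw [sup_top hE hdis h12]; trivial
    obtain ⟨u, hu, w, hw, rfl⟩ := Submodule.mem_sup.1 h1
    rw [Badd, BE i2 _ hr2 _ hw, add_zero]
    have h2 : u = ∑ j, (b.repr ⟨u, hu⟩ j) • (b j : Cube (2 * m)) := by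
      have h3 := b.sum_repr ⟨u, hu⟩
      have h4 := congrArg (Subtype.val) h3
      rw [AddSubmonoidClass.coe_finsetSum] at h4
      exact h4.symm
    rw [h2, Bsum]
    apply Finset.sum_eq_zero
    intro j _
    rw [hBr1, mul_zero]
  apply no_period hm hE hdis hf hr0 hr2
  intro x
  have h1 := hBr x
  rw [hB, fE i2 r hr2, f0, add_comm r x] at h1
  revert h1
  generalize f (x + r) = p
  generalize f x = q
  revert p q; decide

end data

theorem D_bounds {m d : ℕ} (hm : 2 ≤ m) (hd : d ∈ D m) : 2 ≤ d ∧ d ≤ m ∧ (d = 2 → Even m) := by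
  classical
  obtain ⟨f, ⟨E, hE, hdis, hf⟩, hdeg⟩ := hd
  obtain ⟨h1, h2⟩ := of_hasDegree f hdeg
  have hf' := psplus_iff hf
  have hpow : Even (2 ^ (m - 1)) := by
    rw [Nat.even_pow]; exact ⟨even_two, by omega⟩
  refine ⟨?_, ?_, ?_⟩
  · by_contra hlt
    exact not_deg1 hm hE hdis hf' (degLE_mono (by omega) h1)
  · by_contra hlt
    apply h2 m (by omega)
    refine degLE_union E ?_ ?_ ?_ f hf'
    · intro i
      have := Submodule.finrank_quotient_add_finrank (E i)
      rw [hE, finrank_fin_fun] at this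
      omega
    · intro i j hij v hv1 hv2
      have : v ∈ E i ⊓ E j := ⟨hv1, hv2⟩
      rw [hdis i j hij] at this
      simpa using this
    · rw [Fintype.card_fin]
      exact hpow.add_one
  · intro hd2
    by_contra hne
    rw [Nat.not_even_iff_odd] at hne
    subst hd2
    exact not_deg2 hm hne hE hdis hf' h1

/-- the Desarguesian spread -/
theorem self_mem_aux {K : Type} [Field K] [Finite K] [Algebra (ZMod 2) K] {m : ℕ} (hm : 2 ≤ m)
    (hK : finrank (ZMod 2) K = m) : m ∈ D m := by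
  classical
  have : Module.Finite (ZMod 2) K := Module.Finite.of_finite
  have := Fintype.ofFinite K
  have hpow : 2 ^ m = 2 * 2 ^ (m - 1) := by
    rw [← pow_succ']; congr 1; omega
  have hpos : 2 ≤ 2 ^ (m - 1) := by
    calc 2 = 2 ^ 1 := by norm_num
      _ ≤ 2 ^ (m - 1) := Nat.pow_le_pow_right (by norm_num) (by omega)
  have hcard : Fintype.card (Fin (2 ^ (m - 1) + 1)) ≤ Fintype.card K := by
    have h5 := Module.card_eq_pow_finrank (K := ZMod 2) (V := K)
    rw [ZMod.card, hK] at h5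
    rw [h5, Fintype.card_fin]
    omega
  obtain ⟨s⟩ := Function.Embedding.nonempty_of_card_le hcard
  let g : Fin (2 ^ (m - 1) + 1) → (K →ₗ[ZMod 2] K × K) := fun i =>
    LinearMap.prod LinearMap.id (LinearMap.mulLeft (ZMod 2) (s i))
  let E : Fin (2 ^ (m - 1) + 1) → Submodule (ZMod 2) (K × K) := fun i => LinearMap.range (g i)
  have hg : ∀ i x, g i x = (x, s i * x) := fun i x => rfl
  have hE : ∀ i, finrank (ZMod 2) (E i) = m := by
    intro i
    show finrank (ZMod 2) (LinearMap.range (g i)) = m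
    rw [LinearMap.finrank_range_of_inj, hK]
    intro x y h
    exact congrArg Prod.fst h
  have hV : finrank (ZMod 2) (K × K) = 2 * m := by
    rw [finrank_prod, hK]; ring
  have hdis : ∀ i j, i ≠ j → ∀ v, v ∈ E i → v ∈ E j → v = 0 := by
    rintro i j hij _ ⟨x, rfl⟩ ⟨y, hy⟩
    rw [hg, hg] at hy
    rw [Prod.mk.injEq] at hy
    obtain ⟨h1, h2⟩ := hy
    subst h1
    have h3 : (s j - s i) * y = 0 := by linear_combination h2
    rcases mul_eq_zero.1 h3 with h4 | h4
    · exact absurd (s.injective (sub_eq_zero.1 h4)).symm hij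
    · rw [hg, h4, mul_zero]; rfl
  let f : K × K → ZMod 2 := fun v => if ∃ i, v ∈ E i then 1 else 0
  have hf : ∀ v, f v = 1 ↔ ∃ i, v ∈ E i := by
    intro v
    show (if ∃ i, v ∈ E i then (1 : ZMod 2) else 0) = 1 ↔ _
    by_cases h : ∃ i, v ∈ E i
    · simp [h]
    · simp [h]
  refine mem_D hV (by simp) E hE hdis f hf ?_ (by omega) ?_
  · refine degLE_union E ?_ hdis ?_ f hf
    · intro i
      have := Submodule.finrank_quotient_add_finrank (E i)
      rw [hE, hV] at this
      omega
    · rw [Fintype.card_fin]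
      have hpow : Even (2 ^ (m - 1)) := by
        rw [Nat.even_pow]; exact ⟨even_two, by omega⟩
      exact hpow.add_one
  · refine not_degLE_of_missing (by omega) (LinearMap.range (LinearMap.inr (ZMod 2) K K)) ?_ f
      ((hf 0).2 ⟨0, Submodule.zero_mem _⟩) ?_
    · rw [LinearMap.finrank_range_of_inj LinearMap.inr_injective, hK]
    · rintro _ ⟨y, rfl⟩ hne
      rcases zmod2_cases (f (LinearMap.inr (ZMod 2) K K y)) with h0 | h0
      · exact h0
      · exfalso
        obtain ⟨i, x, hx⟩ := (hf _).1 h0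
        rw [hg] at hx
        have h1 : x = 0 := congrArg Prod.fst hx
        have h2 : s i * x = y := congrArg Prod.snd hx
        apply hne
        rw [← h2, h1, mul_zero, map_zero]

theorem self_mem (m : ℕ) (hm : 2 ≤ m) : m ∈ D m :=
  self_mem_aux (K := GaloisField 2 m) hm (GaloisField.finrank 2 (by omega))

end Pool.Agent.helper65.PS
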